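import Pool.Agent.TH609.E3.Defs

/-!
# The cells: `(1/40, 12]`
-/

namespace Pool.Agent.TH609.E3

def cellsP0 : List Cell := [
⟨1, 40, 12, 479, true, -318, [12, 5, 4, 3]⟩,
⟨12, 479, 9, 359, true, -318, [5, 4, 3, 12]⟩,
⟨9, 359, 8, 319, true, -318, [5, 4, 12, 3]⟩,
⟨8, 319, 7, 279, true, -316, [5, 12, 4, 3]⟩,
⟨7, 279, 6, 239, true, -316, [12, 5, 4, 3]⟩,
⟨6, 239, 5, 199, true, -316, [5, 4, 3, 12]⟩,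
⟨5, 199, 9, 358, true, -317, [4, 3, 12, 5]⟩,
⟨9, 358, 4, 159, true, -317, [4, 12, 3, 5]⟩,
⟨4, 159, 7, 278, true, -315, [3, 5, 12, 4]⟩,
⟨7, 278, 3, 119, true, -315, [3, 12, 5, 4]⟩,
⟨3, 119, 8, 317, true, -316, [5, 4, 12, 3]⟩,
⟨8, 317, 5, 198, true, -314, [5, 12, 4, 3]⟩,
⟨5, 198, 12, 475, true, -315, [12, 4, 3, 5]⟩,
⟨12, 475, 7, 277, true, -315, [4, 3, 5, 12]⟩,
⟨7, 277, 9, 356, true, -315, [4, 3, 12, 5]⟩,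
⟨9, 356, 2, 79, true, -315, [4, 12, 3, 5]⟩,
⟨2, 79, 9, 355, true, -313, [5, 3, 12, 4]⟩,
⟨9, 355, 7, 276, true, -313, [5, 12, 3, 4]⟩,
⟨7, 276, 12, 473, true, -313, [12, 5, 3, 4]⟩,
⟨12, 473, 5, 197, true, -313, [5, 3, 4, 12]⟩,
⟨5, 197, 8, 315, true, -314, [3, 4, 12, 5]⟩,
⟨8, 315, 3, 118, true, -312, [3, 12, 4, 5]⟩,
⟨3, 118, 7, 275, true, -313, [4, 5, 12, 3]⟩,
⟨7, 275, 4, 157, true, -313, [4, 12, 5, 3]⟩,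
⟨4, 157, 9, 353, true, -311, [5, 3, 12, 4]⟩,
⟨9, 353, 5, 196, true, -311, [5, 12, 3, 4]⟩,
⟨5, 196, 6, 235, true, -312, [12, 3, 4, 5]⟩,
⟨6, 235, 7, 274, true, -312, [3, 4, 5, 12]⟩,
⟨7, 274, 8, 313, true, -312, [3, 4, 12, 5]⟩,
⟨8, 313, 9, 352, true, -310, [3, 12, 4, 5]⟩,
⟨9, 352, 12, 469, true, -310, [12, 3, 4, 5]⟩,
⟨12, 469, 1, 39, true, -310, [3, 4, 5, 12]⟩,
⟨1, 39, 12, 467, true, -310, [12, 5, 4, 3]⟩,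
⟨12, 467, 9, 350, true, -310, [5, 4, 3, 12]⟩,
⟨9, 350, 8, 311, true, -310, [5, 4, 12, 3]⟩,
⟨8, 311, 7, 272, true, -308, [5, 12, 4, 3]⟩,
⟨7, 272, 6, 233, true, -308, [12, 5, 4, 3]⟩,
⟨6, 233, 5, 194, true, -308, [5, 4, 3, 12]⟩,
⟨5, 194, 9, 349, true, -309, [4, 3, 12, 5]⟩,
⟨9, 349, 4, 155, true, -309, [4, 12, 3, 5]⟩,
⟨4, 155, 7, 271, true, -307, [3, 5, 12, 4]⟩,
⟨7, 271, 3, 116, true, -307, [3, 12, 5, 4]⟩,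
⟨3, 116, 8, 309, true, -308, [5, 4, 12, 3]⟩,
⟨8, 309, 5, 193, true, -306, [5, 12, 4, 3]⟩,
⟨5, 193, 12, 463, true, -307, [12, 4, 3, 5]⟩,
⟨12, 463, 7, 270, true, -307, [4, 3, 5, 12]⟩,
⟨7, 270, 9, 347, true, -307, [4, 3, 12, 5]⟩,
⟨9, 347, 2, 77, true, -307, [4, 12, 3, 5]⟩,
⟨2, 77, 9, 346, true, -305, [5, 3, 12, 4]⟩,
⟨9, 346, 7, 269, true, -305, [5, 12, 3, 4]⟩,
⟨7, 269, 12, 461, true, -305, [12, 5, 3, 4]⟩,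
⟨12, 461, 5, 192, true, -305, [5, 3, 4, 12]⟩,
⟨5, 192, 8, 307, true, -306, [3, 4, 12, 5]⟩,
⟨8, 307, 3, 115, true, -304, [3, 12, 4, 5]⟩,
⟨3, 115, 7, 268, true, -305, [4, 5, 12, 3]⟩,
⟨7, 268, 4, 153, true, -305, [4, 12, 5, 3]⟩,
⟨4, 153, 9, 344, true, -303, [5, 3, 12, 4]⟩,
⟨9, 344, 5, 191, true, -303, [5, 12, 3, 4]⟩,
⟨5, 191, 6, 229, true, -304, [12, 3, 4, 5]⟩,
⟨6, 229, 7, 267, true, -304, [3, 4, 5, 12]⟩,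
⟨7, 267, 8, 305, true, -304, [3, 4, 12, 5]⟩,
⟨8, 305, 9, 343, true, -302, [3, 12, 4, 5]⟩,
⟨9, 343, 12, 457, true, -302, [12, 3, 4, 5]⟩,
⟨12, 457, 1, 38, true, -302, [3, 4, 5, 12]⟩,
⟨1, 38, 12, 455, true, -302, [12, 5, 4, 3]⟩,
⟨12, 455, 9, 341, true, -302, [5, 4, 3, 12]⟩,
⟨9, 341, 8, 303, true, -302, [5, 4, 12, 3]⟩,
⟨8, 303, 7, 265, true, -300, [5, 12, 4, 3]⟩,
⟨7, 265, 6, 227, true, -300, [12, 5, 4, 3]⟩,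
⟨6, 227, 5, 189, true, -300, [5, 4, 3, 12]⟩,
⟨5, 189, 9, 340, true, -301, [4, 3, 12, 5]⟩,
⟨9, 340, 4, 151, true, -301, [4, 12, 3, 5]⟩,
⟨4, 151, 7, 264, true, -299, [3, 5, 12, 4]⟩,
⟨7, 264, 3, 113, true, -299, [3, 12, 5, 4]⟩,
⟨3, 113, 8, 301, true, -300, [5, 4, 12, 3]⟩,
⟨8, 301, 5, 188, true, -298, [5, 12, 4, 3]⟩,
⟨5, 188, 12, 451, true, -299, [12, 4, 3, 5]⟩,
⟨12, 451, 7, 263, true, -299, [4, 3, 5, 12]⟩,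
⟨7, 263, 9, 338, true, -299, [4, 3, 12, 5]⟩,
⟨9, 338, 2, 75, true, -299, [4, 12, 3, 5]⟩,
⟨2, 75, 9, 337, true, -297, [5, 3, 12, 4]⟩,
⟨9, 337, 7, 262, true, -297, [5, 12, 3, 4]⟩,
⟨7, 262, 12, 449, true, -297, [12, 5, 3, 4]⟩,
⟨12, 449, 5, 187, true, -297, [5, 3, 4, 12]⟩,
⟨5, 187, 8, 299, true, -298, [3, 4, 12, 5]⟩,
⟨8, 299, 3, 112, true, -296, [3, 12, 4, 5]⟩,
⟨3, 112, 7, 261, true, -297, [4, 5, 12, 3]⟩,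
⟨7, 261, 4, 149, true, -297, [4, 12, 5, 3]⟩,
⟨4, 149, 9, 335, true, -295, [5, 3, 12, 4]⟩,
⟨9, 335, 5, 186, true, -295, [5, 12, 3, 4]⟩,
⟨5, 186, 6, 223, true, -296, [12, 3, 4, 5]⟩,
⟨6, 223, 7, 260, true, -296, [3, 4, 5, 12]⟩,
⟨7, 260, 8, 297, true, -296, [3, 4, 12, 5]⟩,
⟨8, 297, 9, 334, true, -294, [3, 12, 4, 5]⟩,
⟨9, 334, 12, 445, true, -294, [12, 3, 4, 5]⟩,
⟨12, 445, 1, 37, true, -294, [3, 4, 5, 12]⟩,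
⟨1, 37, 12, 443, true, -294, [12, 5, 4, 3]⟩,
⟨12, 443, 9, 332, true, -294, [5, 4, 3, 12]⟩,
⟨9, 332, 8, 295, true, -294, [5, 4, 12, 3]⟩,
⟨8, 295, 7, 258, true, -292, [5, 12, 4, 3]⟩]

def cellsP1 : List Cell := [
⟨7, 258, 6, 221, true, -292, [12, 5, 4, 3]⟩,
⟨6, 221, 5, 184, true, -292, [5, 4, 3, 12]⟩,
⟨5, 184, 9, 331, true, -293, [4, 3, 12, 5]⟩,
⟨9, 331, 4, 147, true, -293, [4, 12, 3, 5]⟩,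
⟨4, 147, 7, 257, true, -291, [3, 5, 12, 4]⟩,
⟨7, 257, 3, 110, true, -291, [3, 12, 5, 4]⟩,
⟨3, 110, 8, 293, true, -292, [5, 4, 12, 3]⟩,
⟨8, 293, 5, 183, true, -290, [5, 12, 4, 3]⟩,
⟨5, 183, 12, 439, true, -291, [12, 4, 3, 5]⟩,
⟨12, 439, 7, 256, true, -291, [4, 3, 5, 12]⟩,
⟨7, 256, 9, 329, true, -291, [4, 3, 12, 5]⟩,
⟨9, 329, 2, 73, true, -291, [4, 12, 3, 5]⟩,
⟨2, 73, 9, 328, true, -289, [5, 3, 12, 4]⟩,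
⟨9, 328, 7, 255, true, -289, [5, 12, 3, 4]⟩,
⟨7, 255, 12, 437, true, -289, [12, 5, 3, 4]⟩,
⟨12, 437, 5, 182, true, -289, [5, 3, 4, 12]⟩,
⟨5, 182, 8, 291, true, -290, [3, 4, 12, 5]⟩,
⟨8, 291, 3, 109, true, -288, [3, 12, 4, 5]⟩,
⟨3, 109, 7, 254, true, -289, [4, 5, 12, 3]⟩,
⟨7, 254, 4, 145, true, -289, [4, 12, 5, 3]⟩,
⟨4, 145, 9, 326, true, -287, [5, 3, 12, 4]⟩,
⟨9, 326, 5, 181, true, -287, [5, 12, 3, 4]⟩,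
⟨5, 181, 6, 217, true, -288, [12, 3, 4, 5]⟩,
⟨6, 217, 7, 253, true, -288, [3, 4, 5, 12]⟩,
⟨7, 253, 8, 289, true, -288, [3, 4, 12, 5]⟩,
⟨8, 289, 9, 325, true, -286, [3, 12, 4, 5]⟩,
⟨9, 325, 12, 433, true, -286, [12, 3, 4, 5]⟩,
⟨12, 433, 1, 36, true, -286, [3, 4, 5, 12]⟩,
⟨1, 36, 12, 431, true, -286, [12, 5, 4, 3]⟩,
⟨12, 431, 9, 323, true, -286, [5, 4, 3, 12]⟩,
⟨9, 323, 8, 287, true, -286, [5, 4, 12, 3]⟩,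
⟨8, 287, 7, 251, true, -284, [5, 12, 4, 3]⟩,
⟨7, 251, 6, 215, true, -284, [12, 5, 4, 3]⟩,
⟨6, 215, 5, 179, true, -284, [5, 4, 3, 12]⟩,
⟨5, 179, 9, 322, true, -285, [4, 3, 12, 5]⟩,
⟨9, 322, 4, 143, true, -285, [4, 12, 3, 5]⟩,
⟨4, 143, 7, 250, true, -283, [3, 5, 12, 4]⟩,
⟨7, 250, 3, 107, true, -283, [3, 12, 5, 4]⟩,
⟨3, 107, 8, 285, true, -284, [5, 4, 12, 3]⟩,
⟨8, 285, 5, 178, true, -282, [5, 12, 4, 3]⟩,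
⟨5, 178, 12, 427, true, -283, [12, 4, 3, 5]⟩,
⟨12, 427, 7, 249, true, -283, [4, 3, 5, 12]⟩,
⟨7, 249, 9, 320, true, -283, [4, 3, 12, 5]⟩,
⟨9, 320, 2, 71, true, -283, [4, 12, 3, 5]⟩,
⟨2, 71, 9, 319, true, -281, [5, 3, 12, 4]⟩,
⟨9, 319, 7, 248, true, -281, [5, 12, 3, 4]⟩,
⟨7, 248, 12, 425, true, -281, [12, 5, 3, 4]⟩,
⟨12, 425, 5, 177, true, -281, [5, 3, 4, 12]⟩,
⟨5, 177, 8, 283, true, -282, [3, 4, 12, 5]⟩,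
⟨8, 283, 3, 106, true, -280, [3, 12, 4, 5]⟩,
⟨3, 106, 7, 247, true, -281, [4, 5, 12, 3]⟩,
⟨7, 247, 4, 141, true, -281, [4, 12, 5, 3]⟩,
⟨4, 141, 9, 317, true, -279, [5, 3, 12, 4]⟩,
⟨9, 317, 5, 176, true, -279, [5, 12, 3, 4]⟩,
⟨5, 176, 6, 211, true, -280, [12, 3, 4, 5]⟩,
⟨6, 211, 7, 246, true, -280, [3, 4, 5, 12]⟩,
⟨7, 246, 8, 281, true, -280, [3, 4, 12, 5]⟩,
⟨8, 281, 9, 316, true, -278, [3, 12, 4, 5]⟩,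
⟨9, 316, 12, 421, true, -278, [12, 3, 4, 5]⟩,
⟨12, 421, 1, 35, true, -278, [3, 4, 5, 12]⟩,
⟨1, 35, 12, 419, true, -278, [12, 5, 4, 3]⟩,
⟨12, 419, 9, 314, true, -278, [5, 4, 3, 12]⟩,
⟨9, 314, 8, 279, true, -278, [5, 4, 12, 3]⟩,
⟨8, 279, 7, 244, true, -276, [5, 12, 4, 3]⟩,
⟨7, 244, 6, 209, true, -276, [12, 5, 4, 3]⟩,
⟨6, 209, 5, 174, true, -276, [5, 4, 3, 12]⟩,
⟨5, 174, 9, 313, true, -277, [4, 3, 12, 5]⟩,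
⟨9, 313, 4, 139, true, -277, [4, 12, 3, 5]⟩,
⟨4, 139, 7, 243, true, -275, [3, 5, 12, 4]⟩,
⟨7, 243, 3, 104, true, -275, [3, 12, 5, 4]⟩,
⟨3, 104, 8, 277, true, -276, [5, 4, 12, 3]⟩,
⟨8, 277, 5, 173, true, -274, [5, 12, 4, 3]⟩,
⟨5, 173, 12, 415, true, -275, [12, 4, 3, 5]⟩,
⟨12, 415, 7, 242, true, -275, [4, 3, 5, 12]⟩,
⟨7, 242, 9, 311, true, -275, [4, 3, 12, 5]⟩,
⟨9, 311, 2, 69, true, -275, [4, 12, 3, 5]⟩,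
⟨2, 69, 9, 310, true, -273, [5, 3, 12, 4]⟩,
⟨9, 310, 7, 241, true, -273, [5, 12, 3, 4]⟩,
⟨7, 241, 12, 413, true, -273, [12, 5, 3, 4]⟩,
⟨12, 413, 5, 172, true, -273, [5, 3, 4, 12]⟩,
⟨5, 172, 8, 275, true, -274, [3, 4, 12, 5]⟩,
⟨8, 275, 3, 103, true, -272, [3, 12, 4, 5]⟩,
⟨3, 103, 7, 240, true, -273, [4, 5, 12, 3]⟩,
⟨7, 240, 4, 137, true, -273, [4, 12, 5, 3]⟩,
⟨4, 137, 9, 308, true, -271, [5, 3, 12, 4]⟩,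
⟨9, 308, 5, 171, true, -271, [5, 12, 3, 4]⟩,
⟨5, 171, 6, 205, true, -272, [12, 3, 4, 5]⟩,
⟨6, 205, 7, 239, true, -272, [3, 4, 5, 12]⟩,
⟨7, 239, 8, 273, true, -272, [3, 4, 12, 5]⟩,
⟨8, 273, 9, 307, true, -270, [3, 12, 4, 5]⟩,
⟨9, 307, 12, 409, true, -270, [12, 3, 4, 5]⟩,
⟨12, 409, 1, 34, true, -270, [3, 4, 5, 12]⟩,
⟨1, 34, 12, 407, true, -270, [12, 5, 4, 3]⟩,
⟨12, 407, 9, 305, true, -270, [5, 4, 3, 12]⟩,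
⟨9, 305, 8, 271, true, -270, [5, 4, 12, 3]⟩,
⟨8, 271, 7, 237, true, -268, [5, 12, 4, 3]⟩,
⟨7, 237, 6, 203, true, -268, [12, 5, 4, 3]⟩,
⟨6, 203, 5, 169, true, -268, [5, 4, 3, 12]⟩,
⟨5, 169, 9, 304, true, -269, [4, 3, 12, 5]⟩,
⟨9, 304, 4, 135, true, -269, [4, 12, 3, 5]⟩]

def cellsP2 : List Cell := [
⟨4, 135, 7, 236, true, -267, [3, 5, 12, 4]⟩,
⟨7, 236, 3, 101, true, -267, [3, 12, 5, 4]⟩,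
⟨3, 101, 8, 269, true, -268, [5, 4, 12, 3]⟩,
⟨8, 269, 5, 168, true, -266, [5, 12, 4, 3]⟩,
⟨5, 168, 12, 403, true, -267, [12, 4, 3, 5]⟩,
⟨12, 403, 7, 235, true, -267, [4, 3, 5, 12]⟩,
⟨7, 235, 9, 302, true, -267, [4, 3, 12, 5]⟩,
⟨9, 302, 2, 67, true, -267, [4, 12, 3, 5]⟩,
⟨2, 67, 9, 301, true, -265, [5, 3, 12, 4]⟩,
⟨9, 301, 7, 234, true, -265, [5, 12, 3, 4]⟩,
⟨7, 234, 12, 401, true, -265, [12, 5, 3, 4]⟩,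
⟨12, 401, 5, 167, true, -265, [5, 3, 4, 12]⟩,
⟨5, 167, 8, 267, true, -266, [3, 4, 12, 5]⟩,
⟨8, 267, 3, 100, true, -264, [3, 12, 4, 5]⟩,
⟨3, 100, 7, 233, true, -265, [4, 5, 12, 3]⟩,
⟨7, 233, 4, 133, true, -265, [4, 12, 5, 3]⟩,
⟨4, 133, 9, 299, true, -263, [5, 3, 12, 4]⟩,
⟨9, 299, 5, 166, true, -263, [5, 12, 3, 4]⟩,
⟨5, 166, 6, 199, true, -264, [12, 3, 4, 5]⟩,
⟨6, 199, 7, 232, true, -264, [3, 4, 5, 12]⟩,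
⟨7, 232, 8, 265, true, -264, [3, 4, 12, 5]⟩,
⟨8, 265, 9, 298, true, -262, [3, 12, 4, 5]⟩,
⟨9, 298, 12, 397, true, -262, [12, 3, 4, 5]⟩,
⟨12, 397, 1, 33, true, -262, [3, 4, 5, 12]⟩,
⟨1, 33, 12, 395, true, -262, [12, 5, 4, 3]⟩,
⟨12, 395, 9, 296, true, -262, [5, 4, 3, 12]⟩,
⟨9, 296, 8, 263, true, -262, [5, 4, 12, 3]⟩,
⟨8, 263, 7, 230, true, -260, [5, 12, 4, 3]⟩,
⟨7, 230, 6, 197, true, -260, [12, 5, 4, 3]⟩,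
⟨6, 197, 5, 164, true, -260, [5, 4, 3, 12]⟩,
⟨5, 164, 9, 295, true, -261, [4, 3, 12, 5]⟩,
⟨9, 295, 4, 131, true, -261, [4, 12, 3, 5]⟩,
⟨4, 131, 7, 229, true, -259, [3, 5, 12, 4]⟩,
⟨7, 229, 3, 98, true, -259, [3, 12, 5, 4]⟩,
⟨3, 98, 8, 261, true, -260, [5, 4, 12, 3]⟩,
⟨8, 261, 5, 163, true, -258, [5, 12, 4, 3]⟩,
⟨5, 163, 12, 391, true, -259, [12, 4, 3, 5]⟩,
⟨12, 391, 7, 228, true, -259, [4, 3, 5, 12]⟩,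
⟨7, 228, 9, 293, true, -259, [4, 3, 12, 5]⟩,
⟨9, 293, 2, 65, true, -259, [4, 12, 3, 5]⟩,
⟨2, 65, 9, 292, true, -257, [5, 3, 12, 4]⟩,
⟨9, 292, 7, 227, true, -257, [5, 12, 3, 4]⟩,
⟨7, 227, 12, 389, true, -257, [12, 5, 3, 4]⟩,
⟨12, 389, 5, 162, true, -257, [5, 3, 4, 12]⟩,
⟨5, 162, 8, 259, true, -258, [3, 4, 12, 5]⟩,
⟨8, 259, 3, 97, true, -256, [3, 12, 4, 5]⟩,
⟨3, 97, 7, 226, true, -257, [4, 5, 12, 3]⟩,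
⟨7, 226, 4, 129, true, -257, [4, 12, 5, 3]⟩,
⟨4, 129, 9, 290, true, -255, [5, 3, 12, 4]⟩,
⟨9, 290, 5, 161, true, -255, [5, 12, 3, 4]⟩,
⟨5, 161, 6, 193, true, -256, [12, 3, 4, 5]⟩,
⟨6, 193, 7, 225, true, -256, [3, 4, 5, 12]⟩,
⟨7, 225, 8, 257, true, -256, [3, 4, 12, 5]⟩,
⟨8, 257, 9, 289, true, -254, [3, 12, 4, 5]⟩,
⟨9, 289, 12, 385, true, -254, [12, 3, 4, 5]⟩,
⟨12, 385, 1, 32, true, -254, [3, 4, 5, 12]⟩,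
⟨1, 32, 12, 383, true, -254, [12, 5, 4, 3]⟩,
⟨12, 383, 9, 287, true, -254, [5, 4, 3, 12]⟩,
⟨9, 287, 8, 255, true, -254, [5, 4, 12, 3]⟩,
⟨8, 255, 7, 223, true, -252, [5, 12, 4, 3]⟩,
⟨7, 223, 6, 191, true, -252, [12, 5, 4, 3]⟩,
⟨6, 191, 5, 159, true, -252, [5, 4, 3, 12]⟩,
⟨5, 159, 9, 286, true, -253, [4, 3, 12, 5]⟩,
⟨9, 286, 4, 127, true, -253, [4, 12, 3, 5]⟩,
⟨4, 127, 7, 222, true, -251, [3, 5, 12, 4]⟩,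
⟨7, 222, 3, 95, true, -251, [3, 12, 5, 4]⟩,
⟨3, 95, 8, 253, true, -252, [5, 4, 12, 3]⟩,
⟨8, 253, 5, 158, true, -250, [5, 12, 4, 3]⟩,
⟨5, 158, 12, 379, true, -251, [12, 4, 3, 5]⟩,
⟨12, 379, 7, 221, true, -251, [4, 3, 5, 12]⟩,
⟨7, 221, 9, 284, true, -251, [4, 3, 12, 5]⟩,
⟨9, 284, 2, 63, true, -251, [4, 12, 3, 5]⟩,
⟨2, 63, 9, 283, true, -249, [5, 3, 12, 4]⟩,
⟨9, 283, 7, 220, true, -249, [5, 12, 3, 4]⟩,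
⟨7, 220, 12, 377, true, -249, [12, 5, 3, 4]⟩,
⟨12, 377, 5, 157, true, -249, [5, 3, 4, 12]⟩,
⟨5, 157, 8, 251, true, -250, [3, 4, 12, 5]⟩,
⟨8, 251, 3, 94, true, -248, [3, 12, 4, 5]⟩,
⟨3, 94, 7, 219, true, -249, [4, 5, 12, 3]⟩,
⟨7, 219, 4, 125, true, -249, [4, 12, 5, 3]⟩,
⟨4, 125, 9, 281, true, -247, [5, 3, 12, 4]⟩,
⟨9, 281, 5, 156, true, -247, [5, 12, 3, 4]⟩,
⟨5, 156, 6, 187, true, -248, [12, 3, 4, 5]⟩,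
⟨6, 187, 7, 218, true, -248, [3, 4, 5, 12]⟩,
⟨7, 218, 8, 249, true, -248, [3, 4, 12, 5]⟩,
⟨8, 249, 9, 280, true, -246, [3, 12, 4, 5]⟩,
⟨9, 280, 12, 373, true, -246, [12, 3, 4, 5]⟩,
⟨12, 373, 1, 31, true, -246, [3, 4, 5, 12]⟩,
⟨1, 31, 12, 371, true, -246, [12, 5, 4, 3]⟩,
⟨12, 371, 9, 278, true, -246, [5, 4, 3, 12]⟩,
⟨9, 278, 8, 247, true, -246, [5, 4, 12, 3]⟩,
⟨8, 247, 7, 216, true, -244, [5, 12, 4, 3]⟩,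
⟨7, 216, 6, 185, true, -244, [12, 5, 4, 3]⟩,
⟨6, 185, 5, 154, true, -244, [5, 4, 3, 12]⟩,
⟨5, 154, 9, 277, true, -245, [4, 3, 12, 5]⟩,
⟨9, 277, 4, 123, true, -245, [4, 12, 3, 5]⟩,
⟨4, 123, 7, 215, true, -243, [3, 5, 12, 4]⟩,
⟨7, 215, 3, 92, true, -243, [3, 12, 5, 4]⟩,
⟨3, 92, 8, 245, true, -244, [5, 4, 12, 3]⟩,
⟨8, 245, 5, 153, true, -242, [5, 12, 4, 3]⟩]

def cellsP3 : List Cell := [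
⟨5, 153, 12, 367, true, -243, [12, 4, 3, 5]⟩,
⟨12, 367, 7, 214, true, -243, [4, 3, 5, 12]⟩,
⟨7, 214, 9, 275, true, -243, [4, 3, 12, 5]⟩,
⟨9, 275, 2, 61, true, -243, [4, 12, 3, 5]⟩,
⟨2, 61, 9, 274, true, -241, [5, 3, 12, 4]⟩,
⟨9, 274, 7, 213, true, -241, [5, 12, 3, 4]⟩,
⟨7, 213, 12, 365, true, -241, [12, 5, 3, 4]⟩,
⟨12, 365, 5, 152, true, -241, [5, 3, 4, 12]⟩,
⟨5, 152, 8, 243, true, -242, [3, 4, 12, 5]⟩,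
⟨8, 243, 3, 91, true, -240, [3, 12, 4, 5]⟩,
⟨3, 91, 7, 212, true, -241, [4, 5, 12, 3]⟩,
⟨7, 212, 4, 121, true, -241, [4, 12, 5, 3]⟩,
⟨4, 121, 9, 272, true, -239, [5, 3, 12, 4]⟩,
⟨9, 272, 5, 151, true, -239, [5, 12, 3, 4]⟩,
⟨5, 151, 6, 181, true, -240, [12, 3, 4, 5]⟩,
⟨6, 181, 7, 211, true, -240, [3, 4, 5, 12]⟩,
⟨7, 211, 8, 241, true, -240, [3, 4, 12, 5]⟩,
⟨8, 241, 9, 271, true, -238, [3, 12, 4, 5]⟩,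
⟨9, 271, 12, 361, true, -238, [12, 3, 4, 5]⟩,
⟨12, 361, 1, 30, true, -238, [3, 4, 5, 12]⟩,
⟨1, 30, 12, 359, true, -238, [12, 5, 4, 3]⟩,
⟨12, 359, 9, 269, true, -238, [5, 4, 3, 12]⟩,
⟨9, 269, 8, 239, true, -238, [5, 4, 12, 3]⟩,
⟨8, 239, 7, 209, true, -236, [5, 12, 4, 3]⟩,
⟨7, 209, 6, 179, true, -236, [12, 5, 4, 3]⟩,
⟨6, 179, 5, 149, true, -236, [5, 4, 3, 12]⟩,
⟨5, 149, 9, 268, true, -237, [4, 3, 12, 5]⟩,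
⟨9, 268, 4, 119, true, -237, [4, 12, 3, 5]⟩,
⟨4, 119, 7, 208, true, -235, [3, 5, 12, 4]⟩,
⟨7, 208, 3, 89, true, -235, [3, 12, 5, 4]⟩,
⟨3, 89, 8, 237, true, -236, [5, 4, 12, 3]⟩,
⟨8, 237, 5, 148, true, -234, [5, 12, 4, 3]⟩,
⟨5, 148, 12, 355, true, -235, [12, 4, 3, 5]⟩,
⟨12, 355, 7, 207, true, -235, [4, 3, 5, 12]⟩,
⟨7, 207, 9, 266, true, -235, [4, 3, 12, 5]⟩,
⟨9, 266, 2, 59, true, -235, [4, 12, 3, 5]⟩,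
⟨2, 59, 9, 265, true, -233, [5, 3, 12, 4]⟩,
⟨9, 265, 7, 206, true, -233, [5, 12, 3, 4]⟩,
⟨7, 206, 12, 353, true, -233, [12, 5, 3, 4]⟩,
⟨12, 353, 5, 147, true, -233, [5, 3, 4, 12]⟩,
⟨5, 147, 8, 235, true, -234, [3, 4, 12, 5]⟩,
⟨8, 235, 3, 88, true, -232, [3, 12, 4, 5]⟩,
⟨3, 88, 7, 205, true, -233, [4, 5, 12, 3]⟩,
⟨7, 205, 4, 117, true, -233, [4, 12, 5, 3]⟩,
⟨4, 117, 9, 263, true, -231, [5, 3, 12, 4]⟩,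
⟨9, 263, 5, 146, true, -231, [5, 12, 3, 4]⟩,
⟨5, 146, 6, 175, true, -232, [12, 3, 4, 5]⟩,
⟨6, 175, 7, 204, true, -232, [3, 4, 5, 12]⟩,
⟨7, 204, 8, 233, true, -232, [3, 4, 12, 5]⟩,
⟨8, 233, 9, 262, true, -230, [3, 12, 4, 5]⟩,
⟨9, 262, 12, 349, true, -230, [12, 3, 4, 5]⟩,
⟨12, 349, 1, 29, true, -230, [3, 4, 5, 12]⟩,
⟨1, 29, 12, 347, true, -230, [12, 5, 4, 3]⟩,
⟨12, 347, 9, 260, true, -230, [5, 4, 3, 12]⟩,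
⟨9, 260, 8, 231, true, -230, [5, 4, 12, 3]⟩,
⟨8, 231, 7, 202, true, -228, [5, 12, 4, 3]⟩,
⟨7, 202, 6, 173, true, -228, [12, 5, 4, 3]⟩,
⟨6, 173, 5, 144, true, -228, [5, 4, 3, 12]⟩,
⟨5, 144, 9, 259, true, -229, [4, 3, 12, 5]⟩,
⟨9, 259, 4, 115, true, -229, [4, 12, 3, 5]⟩,
⟨4, 115, 7, 201, true, -227, [3, 5, 12, 4]⟩,
⟨7, 201, 3, 86, true, -227, [3, 12, 5, 4]⟩,
⟨3, 86, 8, 229, true, -228, [5, 4, 12, 3]⟩,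
⟨8, 229, 5, 143, true, -226, [5, 12, 4, 3]⟩,
⟨5, 143, 12, 343, true, -227, [12, 4, 3, 5]⟩,
⟨12, 343, 7, 200, true, -227, [4, 3, 5, 12]⟩,
⟨7, 200, 9, 257, true, -227, [4, 3, 12, 5]⟩,
⟨9, 257, 2, 57, true, -227, [4, 12, 3, 5]⟩,
⟨2, 57, 9, 256, true, -225, [5, 3, 12, 4]⟩,
⟨9, 256, 7, 199, true, -225, [5, 12, 3, 4]⟩,
⟨7, 199, 12, 341, true, -225, [12, 5, 3, 4]⟩,
⟨12, 341, 5, 142, true, -225, [5, 3, 4, 12]⟩,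
⟨5, 142, 8, 227, true, -226, [3, 4, 12, 5]⟩,
⟨8, 227, 3, 85, true, -224, [3, 12, 4, 5]⟩,
⟨3, 85, 7, 198, true, -225, [4, 5, 12, 3]⟩,
⟨7, 198, 4, 113, true, -225, [4, 12, 5, 3]⟩,
⟨4, 113, 9, 254, true, -223, [5, 3, 12, 4]⟩,
⟨9, 254, 5, 141, true, -223, [5, 12, 3, 4]⟩,
⟨5, 141, 6, 169, true, -224, [12, 3, 4, 5]⟩,
⟨6, 169, 7, 197, true, -224, [3, 4, 5, 12]⟩,
⟨7, 197, 8, 225, true, -224, [3, 4, 12, 5]⟩,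
⟨8, 225, 9, 253, true, -222, [3, 12, 4, 5]⟩,
⟨9, 253, 12, 337, true, -222, [12, 3, 4, 5]⟩,
⟨12, 337, 1, 28, true, -222, [3, 4, 5, 12]⟩,
⟨1, 28, 12, 335, true, -222, [12, 5, 4, 3]⟩,
⟨12, 335, 9, 251, true, -222, [5, 4, 3, 12]⟩,
⟨9, 251, 8, 223, true, -222, [5, 4, 12, 3]⟩,
⟨8, 223, 7, 195, true, -220, [5, 12, 4, 3]⟩,
⟨7, 195, 6, 167, true, -220, [12, 5, 4, 3]⟩,
⟨6, 167, 5, 139, true, -220, [5, 4, 3, 12]⟩,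
⟨5, 139, 9, 250, true, -221, [4, 3, 12, 5]⟩,
⟨9, 250, 4, 111, true, -221, [4, 12, 3, 5]⟩,
⟨4, 111, 7, 194, true, -219, [3, 5, 12, 4]⟩,
⟨7, 194, 3, 83, true, -219, [3, 12, 5, 4]⟩,
⟨3, 83, 8, 221, true, -220, [5, 4, 12, 3]⟩,
⟨8, 221, 5, 138, true, -218, [5, 12, 4, 3]⟩,
⟨5, 138, 12, 331, true, -219, [12, 4, 3, 5]⟩,
⟨12, 331, 7, 193, true, -219, [4, 3, 5, 12]⟩,
⟨7, 193, 9, 248, true, -219, [4, 3, 12, 5]⟩,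
⟨9, 248, 2, 55, true, -219, [4, 12, 3, 5]⟩]

def cellsP4 : List Cell := [
⟨2, 55, 9, 247, true, -217, [5, 3, 12, 4]⟩,
⟨9, 247, 7, 192, true, -217, [5, 12, 3, 4]⟩,
⟨7, 192, 12, 329, true, -217, [12, 5, 3, 4]⟩,
⟨12, 329, 5, 137, true, -217, [5, 3, 4, 12]⟩,
⟨5, 137, 8, 219, true, -218, [3, 4, 12, 5]⟩,
⟨8, 219, 3, 82, true, -216, [3, 12, 4, 5]⟩,
⟨3, 82, 7, 191, true, -217, [4, 5, 12, 3]⟩,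
⟨7, 191, 4, 109, true, -217, [4, 12, 5, 3]⟩,
⟨4, 109, 9, 245, true, -215, [5, 3, 12, 4]⟩,
⟨9, 245, 5, 136, true, -215, [5, 12, 3, 4]⟩,
⟨5, 136, 6, 163, true, -216, [12, 3, 4, 5]⟩,
⟨6, 163, 7, 190, true, -216, [3, 4, 5, 12]⟩,
⟨7, 190, 8, 217, true, -216, [3, 4, 12, 5]⟩,
⟨8, 217, 9, 244, true, -214, [3, 12, 4, 5]⟩,
⟨9, 244, 12, 325, true, -214, [12, 3, 4, 5]⟩,
⟨12, 325, 1, 27, true, -214, [3, 4, 5, 12]⟩,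
⟨1, 27, 12, 323, true, -214, [12, 5, 4, 3]⟩,
⟨12, 323, 9, 242, true, -214, [5, 4, 3, 12]⟩,
⟨9, 242, 8, 215, true, -214, [5, 4, 12, 3]⟩,
⟨8, 215, 7, 188, true, -212, [5, 12, 4, 3]⟩,
⟨7, 188, 6, 161, true, -212, [12, 5, 4, 3]⟩,
⟨6, 161, 5, 134, true, -212, [5, 4, 3, 12]⟩,
⟨5, 134, 9, 241, true, -213, [4, 3, 12, 5]⟩,
⟨9, 241, 4, 107, true, -213, [4, 12, 3, 5]⟩,
⟨4, 107, 7, 187, true, -211, [3, 5, 12, 4]⟩,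
⟨7, 187, 3, 80, true, -211, [3, 12, 5, 4]⟩,
⟨3, 80, 8, 213, true, -212, [5, 4, 12, 3]⟩,
⟨8, 213, 5, 133, true, -210, [5, 12, 4, 3]⟩,
⟨5, 133, 12, 319, true, -211, [12, 4, 3, 5]⟩,
⟨12, 319, 7, 186, true, -211, [4, 3, 5, 12]⟩,
⟨7, 186, 9, 239, true, -211, [4, 3, 12, 5]⟩,
⟨9, 239, 2, 53, true, -211, [4, 12, 3, 5]⟩,
⟨2, 53, 9, 238, true, -209, [5, 3, 12, 4]⟩,
⟨9, 238, 7, 185, true, -209, [5, 12, 3, 4]⟩,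
⟨7, 185, 12, 317, true, -209, [12, 5, 3, 4]⟩,
⟨12, 317, 5, 132, true, -209, [5, 3, 4, 12]⟩,
⟨5, 132, 8, 211, true, -210, [3, 4, 12, 5]⟩,
⟨8, 211, 3, 79, true, -208, [3, 12, 4, 5]⟩,
⟨3, 79, 7, 184, true, -209, [4, 5, 12, 3]⟩,
⟨7, 184, 4, 105, true, -209, [4, 12, 5, 3]⟩,
⟨4, 105, 9, 236, true, -207, [5, 3, 12, 4]⟩,
⟨9, 236, 5, 131, true, -207, [5, 12, 3, 4]⟩,
⟨5, 131, 6, 157, true, -208, [12, 3, 4, 5]⟩,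
⟨6, 157, 7, 183, true, -208, [3, 4, 5, 12]⟩,
⟨7, 183, 8, 209, true, -208, [3, 4, 12, 5]⟩,
⟨8, 209, 9, 235, true, -206, [3, 12, 4, 5]⟩,
⟨9, 235, 12, 313, true, -206, [12, 3, 4, 5]⟩,
⟨12, 313, 1, 26, true, -206, [3, 4, 5, 12]⟩,
⟨1, 26, 12, 311, true, -206, [12, 5, 4, 3]⟩,
⟨12, 311, 9, 233, true, -206, [5, 4, 3, 12]⟩,
⟨9, 233, 8, 207, true, -206, [5, 4, 12, 3]⟩,
⟨8, 207, 7, 181, true, -204, [5, 12, 4, 3]⟩,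
⟨7, 181, 6, 155, true, -204, [12, 5, 4, 3]⟩,
⟨6, 155, 5, 129, true, -204, [5, 4, 3, 12]⟩,
⟨5, 129, 9, 232, true, -205, [4, 3, 12, 5]⟩,
⟨9, 232, 4, 103, true, -205, [4, 12, 3, 5]⟩,
⟨4, 103, 7, 180, true, -203, [3, 5, 12, 4]⟩,
⟨7, 180, 3, 77, true, -203, [3, 12, 5, 4]⟩,
⟨3, 77, 8, 205, true, -204, [5, 4, 12, 3]⟩,
⟨8, 205, 5, 128, true, -202, [5, 12, 4, 3]⟩,
⟨5, 128, 12, 307, true, -203, [12, 4, 3, 5]⟩,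
⟨12, 307, 7, 179, true, -203, [4, 3, 5, 12]⟩,
⟨7, 179, 9, 230, true, -203, [4, 3, 12, 5]⟩,
⟨9, 230, 2, 51, true, -203, [4, 12, 3, 5]⟩,
⟨2, 51, 9, 229, true, -201, [5, 3, 12, 4]⟩,
⟨9, 229, 7, 178, true, -201, [5, 12, 3, 4]⟩,
⟨7, 178, 12, 305, true, -201, [12, 5, 3, 4]⟩,
⟨12, 305, 5, 127, true, -201, [5, 3, 4, 12]⟩,
⟨5, 127, 8, 203, true, -202, [3, 4, 12, 5]⟩,
⟨8, 203, 3, 76, true, -200, [3, 12, 4, 5]⟩,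
⟨3, 76, 7, 177, true, -201, [4, 5, 12, 3]⟩,
⟨7, 177, 4, 101, true, -201, [4, 12, 5, 3]⟩,
⟨4, 101, 9, 227, true, -199, [5, 3, 12, 4]⟩,
⟨9, 227, 5, 126, true, -199, [5, 12, 3, 4]⟩,
⟨5, 126, 6, 151, true, -200, [12, 3, 4, 5]⟩,
⟨6, 151, 7, 176, true, -200, [3, 4, 5, 12]⟩,
⟨7, 176, 8, 201, true, -200, [3, 4, 12, 5]⟩,
⟨8, 201, 9, 226, true, -198, [3, 12, 4, 5]⟩,
⟨9, 226, 12, 301, true, -198, [12, 3, 4, 5]⟩,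
⟨12, 301, 1, 25, true, -198, [3, 4, 5, 12]⟩,
⟨1, 25, 12, 299, true, -198, [12, 5, 4, 3]⟩,
⟨12, 299, 9, 224, true, -198, [5, 4, 3, 12]⟩,
⟨9, 224, 8, 199, true, -198, [5, 4, 12, 3]⟩,
⟨8, 199, 7, 174, true, -196, [5, 12, 4, 3]⟩,
⟨7, 174, 6, 149, true, -196, [12, 5, 4, 3]⟩,
⟨6, 149, 5, 124, true, -196, [5, 4, 3, 12]⟩,
⟨5, 124, 9, 223, true, -197, [4, 3, 12, 5]⟩,
⟨9, 223, 4, 99, true, -197, [4, 12, 3, 5]⟩,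
⟨4, 99, 7, 173, true, -195, [3, 5, 12, 4]⟩,
⟨7, 173, 3, 74, true, -195, [3, 12, 5, 4]⟩,
⟨3, 74, 8, 197, true, -196, [5, 4, 12, 3]⟩,
⟨8, 197, 5, 123, true, -194, [5, 12, 4, 3]⟩,
⟨5, 123, 12, 295, true, -195, [12, 4, 3, 5]⟩,
⟨12, 295, 7, 172, true, -195, [4, 3, 5, 12]⟩,
⟨7, 172, 9, 221, true, -195, [4, 3, 12, 5]⟩,
⟨9, 221, 2, 49, true, -195, [4, 12, 3, 5]⟩,
⟨2, 49, 9, 220, true, -193, [5, 3, 12, 4]⟩,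
⟨9, 220, 7, 171, true, -193, [5, 12, 3, 4]⟩,
⟨7, 171, 12, 293, true, -193, [12, 5, 3, 4]⟩,
⟨12, 293, 5, 122, true, -193, [5, 3, 4, 12]⟩]

def cellsP5 : List Cell := [
⟨5, 122, 8, 195, true, -194, [3, 4, 12, 5]⟩,
⟨8, 195, 3, 73, true, -192, [3, 12, 4, 5]⟩,
⟨3, 73, 7, 170, true, -193, [4, 5, 12, 3]⟩,
⟨7, 170, 4, 97, true, -193, [4, 12, 5, 3]⟩,
⟨4, 97, 9, 218, true, -191, [5, 3, 12, 4]⟩,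
⟨9, 218, 5, 121, true, -191, [5, 12, 3, 4]⟩,
⟨5, 121, 6, 145, true, -192, [12, 3, 4, 5]⟩,
⟨6, 145, 7, 169, true, -192, [3, 4, 5, 12]⟩,
⟨7, 169, 8, 193, true, -192, [3, 4, 12, 5]⟩,
⟨8, 193, 9, 217, true, -190, [3, 12, 4, 5]⟩,
⟨9, 217, 12, 289, true, -190, [12, 3, 4, 5]⟩,
⟨12, 289, 1, 24, true, -190, [3, 4, 5, 12]⟩,
⟨1, 24, 12, 287, true, -190, [12, 5, 4, 3]⟩,
⟨12, 287, 9, 215, true, -190, [5, 4, 3, 12]⟩,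
⟨9, 215, 8, 191, true, -190, [5, 4, 12, 3]⟩,
⟨8, 191, 7, 167, true, -188, [5, 12, 4, 3]⟩,
⟨7, 167, 6, 143, true, -188, [12, 5, 4, 3]⟩,
⟨6, 143, 5, 119, true, -188, [5, 4, 3, 12]⟩,
⟨5, 119, 9, 214, true, -189, [4, 3, 12, 5]⟩,
⟨9, 214, 4, 95, true, -189, [4, 12, 3, 5]⟩,
⟨4, 95, 7, 166, true, -187, [3, 5, 12, 4]⟩,
⟨7, 166, 3, 71, true, -187, [3, 12, 5, 4]⟩,
⟨3, 71, 8, 189, true, -188, [5, 4, 12, 3]⟩,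
⟨8, 189, 5, 118, true, -186, [5, 12, 4, 3]⟩,
⟨5, 118, 12, 283, true, -187, [12, 4, 3, 5]⟩,
⟨12, 283, 7, 165, true, -187, [4, 3, 5, 12]⟩,
⟨7, 165, 9, 212, true, -187, [4, 3, 12, 5]⟩,
⟨9, 212, 2, 47, true, -187, [4, 12, 3, 5]⟩,
⟨2, 47, 9, 211, true, -185, [5, 3, 12, 4]⟩,
⟨9, 211, 7, 164, true, -185, [5, 12, 3, 4]⟩,
⟨7, 164, 12, 281, true, -185, [12, 5, 3, 4]⟩,
⟨12, 281, 5, 117, true, -185, [5, 3, 4, 12]⟩,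
⟨5, 117, 8, 187, true, -186, [3, 4, 12, 5]⟩,
⟨8, 187, 3, 70, true, -184, [3, 12, 4, 5]⟩,
⟨3, 70, 7, 163, true, -185, [4, 5, 12, 3]⟩,
⟨7, 163, 4, 93, true, -185, [4, 12, 5, 3]⟩,
⟨4, 93, 9, 209, true, -183, [5, 3, 12, 4]⟩,
⟨9, 209, 5, 116, true, -183, [5, 12, 3, 4]⟩,
⟨5, 116, 6, 139, true, -184, [12, 3, 4, 5]⟩,
⟨6, 139, 7, 162, true, -184, [3, 4, 5, 12]⟩,
⟨7, 162, 8, 185, true, -184, [3, 4, 12, 5]⟩,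
⟨8, 185, 9, 208, true, -182, [3, 12, 4, 5]⟩,
⟨9, 208, 12, 277, true, -182, [12, 3, 4, 5]⟩,
⟨12, 277, 1, 23, true, -182, [3, 4, 5, 12]⟩,
⟨1, 23, 12, 275, true, -182, [12, 5, 4, 3]⟩,
⟨12, 275, 9, 206, true, -182, [5, 4, 3, 12]⟩,
⟨9, 206, 8, 183, true, -182, [5, 4, 12, 3]⟩,
⟨8, 183, 7, 160, true, -180, [5, 12, 4, 3]⟩,
⟨7, 160, 6, 137, true, -180, [12, 5, 4, 3]⟩,
⟨6, 137, 5, 114, true, -180, [5, 4, 3, 12]⟩,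
⟨5, 114, 9, 205, true, -181, [4, 3, 12, 5]⟩,
⟨9, 205, 4, 91, true, -181, [4, 12, 3, 5]⟩,
⟨4, 91, 7, 159, true, -179, [3, 5, 12, 4]⟩,
⟨7, 159, 3, 68, true, -179, [3, 12, 5, 4]⟩,
⟨3, 68, 8, 181, true, -180, [5, 4, 12, 3]⟩,
⟨8, 181, 5, 113, true, -178, [5, 12, 4, 3]⟩,
⟨5, 113, 12, 271, true, -179, [12, 4, 3, 5]⟩,
⟨12, 271, 7, 158, true, -179, [4, 3, 5, 12]⟩,
⟨7, 158, 9, 203, true, -179, [4, 3, 12, 5]⟩,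
⟨9, 203, 2, 45, true, -179, [4, 12, 3, 5]⟩,
⟨2, 45, 9, 202, true, -177, [5, 3, 12, 4]⟩,
⟨9, 202, 7, 157, true, -177, [5, 12, 3, 4]⟩,
⟨7, 157, 12, 269, true, -177, [12, 5, 3, 4]⟩,
⟨12, 269, 5, 112, true, -177, [5, 3, 4, 12]⟩,
⟨5, 112, 8, 179, true, -178, [3, 4, 12, 5]⟩,
⟨8, 179, 3, 67, true, -176, [3, 12, 4, 5]⟩,
⟨3, 67, 7, 156, true, -177, [4, 5, 12, 3]⟩,
⟨7, 156, 4, 89, true, -177, [4, 12, 5, 3]⟩,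
⟨4, 89, 9, 200, true, -175, [5, 3, 12, 4]⟩,
⟨9, 200, 5, 111, true, -175, [5, 12, 3, 4]⟩,
⟨5, 111, 6, 133, true, -176, [12, 3, 4, 5]⟩,
⟨6, 133, 7, 155, true, -176, [3, 4, 5, 12]⟩,
⟨7, 155, 8, 177, true, -176, [3, 4, 12, 5]⟩,
⟨8, 177, 9, 199, true, -174, [3, 12, 4, 5]⟩,
⟨9, 199, 12, 265, true, -174, [12, 3, 4, 5]⟩,
⟨12, 265, 1, 22, true, -174, [3, 4, 5, 12]⟩,
⟨1, 22, 12, 263, true, -174, [12, 5, 4, 3]⟩,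
⟨12, 263, 9, 197, true, -174, [5, 4, 3, 12]⟩,
⟨9, 197, 8, 175, true, -174, [5, 4, 12, 3]⟩,
⟨8, 175, 7, 153, true, -172, [5, 12, 4, 3]⟩,
⟨7, 153, 6, 131, true, -172, [12, 5, 4, 3]⟩,
⟨6, 131, 5, 109, true, -172, [5, 4, 3, 12]⟩,
⟨5, 109, 9, 196, true, -173, [4, 3, 12, 5]⟩,
⟨9, 196, 4, 87, true, -173, [4, 12, 3, 5]⟩,
⟨4, 87, 7, 152, true, -171, [3, 5, 12, 4]⟩,
⟨7, 152, 3, 65, true, -171, [3, 12, 5, 4]⟩,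
⟨3, 65, 8, 173, true, -172, [5, 4, 12, 3]⟩,
⟨8, 173, 5, 108, true, -170, [5, 12, 4, 3]⟩,
⟨5, 108, 12, 259, true, -171, [12, 4, 3, 5]⟩,
⟨12, 259, 7, 151, true, -171, [4, 3, 5, 12]⟩,
⟨7, 151, 9, 194, true, -171, [4, 3, 12, 5]⟩,
⟨9, 194, 2, 43, true, -171, [4, 12, 3, 5]⟩,
⟨2, 43, 9, 193, true, -169, [5, 3, 12, 4]⟩,
⟨9, 193, 7, 150, true, -169, [5, 12, 3, 4]⟩,
⟨7, 150, 12, 257, true, -169, [12, 5, 3, 4]⟩,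
⟨12, 257, 5, 107, true, -169, [5, 3, 4, 12]⟩,
⟨5, 107, 8, 171, true, -170, [3, 4, 12, 5]⟩,
⟨8, 171, 3, 64, true, -168, [3, 12, 4, 5]⟩,
⟨3, 64, 7, 149, true, -169, [4, 5, 12, 3]⟩,
⟨7, 149, 4, 85, true, -169, [4, 12, 5, 3]⟩]

def cellsP6 : List Cell := [
⟨4, 85, 9, 191, true, -167, [5, 3, 12, 4]⟩,
⟨9, 191, 5, 106, true, -167, [5, 12, 3, 4]⟩,
⟨5, 106, 6, 127, true, -168, [12, 3, 4, 5]⟩,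
⟨6, 127, 7, 148, true, -168, [3, 4, 5, 12]⟩,
⟨7, 148, 8, 169, true, -168, [3, 4, 12, 5]⟩,
⟨8, 169, 9, 190, true, -166, [3, 12, 4, 5]⟩,
⟨9, 190, 12, 253, true, -166, [12, 3, 4, 5]⟩,
⟨12, 253, 1, 21, true, -166, [3, 4, 5, 12]⟩,
⟨1, 21, 12, 251, true, -166, [12, 5, 4, 3]⟩,
⟨12, 251, 9, 188, true, -166, [5, 4, 3, 12]⟩,
⟨9, 188, 8, 167, true, -166, [5, 4, 12, 3]⟩,
⟨8, 167, 7, 146, true, -164, [5, 12, 4, 3]⟩,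
⟨7, 146, 6, 125, true, -164, [12, 5, 4, 3]⟩,
⟨6, 125, 5, 104, true, -164, [5, 4, 3, 12]⟩,
⟨5, 104, 9, 187, true, -165, [4, 3, 12, 5]⟩,
⟨9, 187, 4, 83, true, -165, [4, 12, 3, 5]⟩,
⟨4, 83, 7, 145, true, -163, [3, 5, 12, 4]⟩,
⟨7, 145, 3, 62, true, -163, [3, 12, 5, 4]⟩,
⟨3, 62, 8, 165, true, -164, [5, 4, 12, 3]⟩,
⟨8, 165, 5, 103, true, -162, [5, 12, 4, 3]⟩,
⟨5, 103, 12, 247, true, -163, [12, 4, 3, 5]⟩,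
⟨12, 247, 7, 144, true, -163, [4, 3, 5, 12]⟩,
⟨7, 144, 9, 185, true, -163, [4, 3, 12, 5]⟩,
⟨9, 185, 2, 41, true, -163, [4, 12, 3, 5]⟩,
⟨2, 41, 9, 184, true, -161, [5, 3, 12, 4]⟩,
⟨9, 184, 7, 143, true, -161, [5, 12, 3, 4]⟩,
⟨7, 143, 12, 245, true, -161, [12, 5, 3, 4]⟩,
⟨12, 245, 5, 102, true, -161, [5, 3, 4, 12]⟩,
⟨5, 102, 8, 163, true, -162, [3, 4, 12, 5]⟩,
⟨8, 163, 3, 61, true, -160, [3, 12, 4, 5]⟩,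
⟨3, 61, 7, 142, true, -161, [4, 5, 12, 3]⟩,
⟨7, 142, 4, 81, true, -161, [4, 12, 5, 3]⟩,
⟨4, 81, 9, 182, true, -159, [5, 3, 12, 4]⟩,
⟨9, 182, 5, 101, true, -159, [5, 12, 3, 4]⟩,
⟨5, 101, 6, 121, true, -160, [12, 3, 4, 5]⟩,
⟨6, 121, 7, 141, true, -160, [3, 4, 5, 12]⟩,
⟨7, 141, 8, 161, true, -160, [3, 4, 12, 5]⟩,
⟨8, 161, 9, 181, true, -158, [3, 12, 4, 5]⟩,
⟨9, 181, 12, 241, true, -158, [12, 3, 4, 5]⟩,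
⟨12, 241, 1, 20, true, -158, [3, 4, 5, 12]⟩,
⟨1, 20, 12, 239, true, -158, [12, 5, 4, 3]⟩,
⟨12, 239, 9, 179, true, -158, [5, 4, 3, 12]⟩,
⟨9, 179, 8, 159, true, -158, [5, 4, 12, 3]⟩,
⟨8, 159, 7, 139, true, -156, [5, 12, 4, 3]⟩,
⟨7, 139, 6, 119, true, -156, [12, 5, 4, 3]⟩,
⟨6, 119, 5, 99, true, -156, [5, 4, 3, 12]⟩,
⟨5, 99, 9, 178, true, -157, [4, 3, 12, 5]⟩,
⟨9, 178, 4, 79, true, -157, [4, 12, 3, 5]⟩,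
⟨4, 79, 7, 138, true, -155, [3, 5, 12, 4]⟩,
⟨7, 138, 3, 59, true, -155, [3, 12, 5, 4]⟩,
⟨3, 59, 8, 157, true, -156, [5, 4, 12, 3]⟩,
⟨8, 157, 5, 98, true, -154, [5, 12, 4, 3]⟩,
⟨5, 98, 12, 235, true, -155, [12, 4, 3, 5]⟩,
⟨12, 235, 7, 137, true, -155, [4, 3, 5, 12]⟩,
⟨7, 137, 9, 176, true, -155, [4, 3, 12, 5]⟩,
⟨9, 176, 2, 39, true, -155, [4, 12, 3, 5]⟩,
⟨2, 39, 9, 175, true, -153, [5, 3, 12, 4]⟩,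
⟨9, 175, 7, 136, true, -153, [5, 12, 3, 4]⟩,
⟨7, 136, 12, 233, true, -153, [12, 5, 3, 4]⟩,
⟨12, 233, 5, 97, true, -153, [5, 3, 4, 12]⟩,
⟨5, 97, 8, 155, true, -154, [3, 4, 12, 5]⟩,
⟨8, 155, 3, 58, true, -152, [3, 12, 4, 5]⟩,
⟨3, 58, 7, 135, true, -153, [4, 5, 12, 3]⟩,
⟨7, 135, 4, 77, true, -153, [4, 12, 5, 3]⟩,
⟨4, 77, 9, 173, true, -151, [5, 3, 12, 4]⟩,
⟨9, 173, 5, 96, true, -151, [5, 12, 3, 4]⟩,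
⟨5, 96, 6, 115, true, -152, [12, 3, 4, 5]⟩,
⟨6, 115, 7, 134, true, -152, [3, 4, 5, 12]⟩,
⟨7, 134, 8, 153, true, -152, [3, 4, 12, 5]⟩,
⟨8, 153, 9, 172, true, -150, [3, 12, 4, 5]⟩,
⟨9, 172, 12, 229, true, -150, [12, 3, 4, 5]⟩,
⟨12, 229, 1, 19, true, -150, [3, 4, 5, 12]⟩,
⟨1, 19, 12, 227, true, -150, [12, 5, 4, 3]⟩,
⟨12, 227, 9, 170, true, -150, [5, 4, 3, 12]⟩,
⟨9, 170, 8, 151, true, -150, [5, 4, 12, 3]⟩,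
⟨8, 151, 7, 132, true, -148, [5, 12, 4, 3]⟩,
⟨7, 132, 6, 113, true, -148, [12, 5, 4, 3]⟩,
⟨6, 113, 5, 94, true, -148, [5, 4, 3, 12]⟩,
⟨5, 94, 9, 169, true, -149, [4, 3, 12, 5]⟩,
⟨9, 169, 4, 75, true, -149, [4, 12, 3, 5]⟩,
⟨4, 75, 7, 131, true, -147, [3, 5, 12, 4]⟩,
⟨7, 131, 3, 56, true, -147, [3, 12, 5, 4]⟩,
⟨3, 56, 8, 149, true, -148, [5, 4, 12, 3]⟩,
⟨8, 149, 5, 93, true, -146, [5, 12, 4, 3]⟩,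
⟨5, 93, 12, 223, true, -147, [12, 4, 3, 5]⟩,
⟨12, 223, 7, 130, true, -147, [4, 3, 5, 12]⟩,
⟨7, 130, 9, 167, true, -147, [4, 3, 12, 5]⟩,
⟨9, 167, 2, 37, true, -147, [4, 12, 3, 5]⟩,
⟨2, 37, 9, 166, true, -145, [5, 3, 12, 4]⟩,
⟨9, 166, 7, 129, true, -145, [5, 12, 3, 4]⟩,
⟨7, 129, 12, 221, true, -145, [12, 5, 3, 4]⟩,
⟨12, 221, 5, 92, true, -145, [5, 3, 4, 12]⟩,
⟨5, 92, 8, 147, true, -146, [3, 4, 12, 5]⟩,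
⟨8, 147, 3, 55, true, -144, [3, 12, 4, 5]⟩,
⟨3, 55, 7, 128, true, -145, [4, 5, 12, 3]⟩,
⟨7, 128, 4, 73, true, -145, [4, 12, 5, 3]⟩,
⟨4, 73, 9, 164, true, -143, [5, 3, 12, 4]⟩,
⟨9, 164, 5, 91, true, -143, [5, 12, 3, 4]⟩,
⟨5, 91, 6, 109, true, -144, [12, 3, 4, 5]⟩,
⟨6, 109, 7, 127, true, -144, [3, 4, 5, 12]⟩]

def cellsP7 : List Cell := [
⟨7, 127, 8, 145, true, -144, [3, 4, 12, 5]⟩,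
⟨8, 145, 9, 163, true, -142, [3, 12, 4, 5]⟩,
⟨9, 163, 12, 217, true, -142, [12, 3, 4, 5]⟩,
⟨12, 217, 1, 18, true, -142, [3, 4, 5, 12]⟩,
⟨1, 18, 12, 215, true, -142, [12, 5, 4, 3]⟩,
⟨12, 215, 9, 161, true, -142, [5, 4, 3, 12]⟩,
⟨9, 161, 8, 143, true, -142, [5, 4, 12, 3]⟩,
⟨8, 143, 7, 125, true, -140, [5, 12, 4, 3]⟩,
⟨7, 125, 6, 107, true, -140, [12, 5, 4, 3]⟩,
⟨6, 107, 5, 89, true, -140, [5, 4, 3, 12]⟩,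
⟨5, 89, 9, 160, true, -141, [4, 3, 12, 5]⟩,
⟨9, 160, 4, 71, true, -141, [4, 12, 3, 5]⟩,
⟨4, 71, 7, 124, true, -139, [3, 5, 12, 4]⟩,
⟨7, 124, 3, 53, true, -139, [3, 12, 5, 4]⟩,
⟨3, 53, 8, 141, true, -140, [5, 4, 12, 3]⟩,
⟨8, 141, 5, 88, true, -138, [5, 12, 4, 3]⟩,
⟨5, 88, 12, 211, true, -139, [12, 4, 3, 5]⟩,
⟨12, 211, 7, 123, true, -139, [4, 3, 5, 12]⟩,
⟨7, 123, 9, 158, true, -139, [4, 3, 12, 5]⟩,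
⟨9, 158, 2, 35, true, -139, [4, 12, 3, 5]⟩,
⟨2, 35, 9, 157, true, -137, [5, 3, 12, 4]⟩,
⟨9, 157, 7, 122, true, -137, [5, 12, 3, 4]⟩,
⟨7, 122, 12, 209, true, -137, [12, 5, 3, 4]⟩,
⟨12, 209, 5, 87, true, -137, [5, 3, 4, 12]⟩,
⟨5, 87, 8, 139, true, -138, [3, 4, 12, 5]⟩,
⟨8, 139, 3, 52, true, -136, [3, 12, 4, 5]⟩,
⟨3, 52, 7, 121, true, -137, [4, 5, 12, 3]⟩,
⟨7, 121, 4, 69, true, -137, [4, 12, 5, 3]⟩,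
⟨4, 69, 9, 155, true, -135, [5, 3, 12, 4]⟩,
⟨9, 155, 5, 86, true, -135, [5, 12, 3, 4]⟩,
⟨5, 86, 6, 103, true, -136, [12, 3, 4, 5]⟩,
⟨6, 103, 7, 120, true, -136, [3, 4, 5, 12]⟩,
⟨7, 120, 8, 137, true, -136, [3, 4, 12, 5]⟩,
⟨8, 137, 9, 154, true, -134, [3, 12, 4, 5]⟩,
⟨9, 154, 12, 205, true, -134, [12, 3, 4, 5]⟩,
⟨12, 205, 1, 17, true, -134, [3, 4, 5, 12]⟩,
⟨1, 17, 12, 203, true, -134, [12, 5, 4, 3]⟩,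
⟨12, 203, 9, 152, true, -134, [5, 4, 3, 12]⟩,
⟨9, 152, 8, 135, true, -134, [5, 4, 12, 3]⟩,
⟨8, 135, 7, 118, true, -132, [5, 12, 4, 3]⟩,
⟨7, 118, 6, 101, true, -132, [12, 5, 4, 3]⟩,
⟨6, 101, 5, 84, true, -132, [5, 4, 3, 12]⟩,
⟨5, 84, 9, 151, true, -133, [4, 3, 12, 5]⟩,
⟨9, 151, 4, 67, true, -133, [4, 12, 3, 5]⟩,
⟨4, 67, 7, 117, true, -131, [3, 5, 12, 4]⟩,
⟨7, 117, 3, 50, true, -131, [3, 12, 5, 4]⟩,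
⟨3, 50, 8, 133, true, -132, [5, 4, 12, 3]⟩,
⟨8, 133, 5, 83, true, -130, [5, 12, 4, 3]⟩,
⟨5, 83, 12, 199, true, -131, [12, 4, 3, 5]⟩,
⟨12, 199, 7, 116, true, -131, [4, 3, 5, 12]⟩,
⟨7, 116, 9, 149, true, -131, [4, 3, 12, 5]⟩,
⟨9, 149, 2, 33, true, -131, [4, 12, 3, 5]⟩,
⟨2, 33, 9, 148, true, -129, [5, 3, 12, 4]⟩,
⟨9, 148, 7, 115, true, -129, [5, 12, 3, 4]⟩,
⟨7, 115, 12, 197, true, -129, [12, 5, 3, 4]⟩,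
⟨12, 197, 5, 82, true, -129, [5, 3, 4, 12]⟩,
⟨5, 82, 8, 131, true, -130, [3, 4, 12, 5]⟩,
⟨8, 131, 3, 49, true, -128, [3, 12, 4, 5]⟩,
⟨3, 49, 7, 114, true, -129, [4, 5, 12, 3]⟩,
⟨7, 114, 4, 65, true, -129, [4, 12, 5, 3]⟩,
⟨4, 65, 9, 146, true, -127, [5, 3, 12, 4]⟩,
⟨9, 146, 5, 81, true, -127, [5, 12, 3, 4]⟩,
⟨5, 81, 6, 97, true, -128, [12, 3, 4, 5]⟩,
⟨6, 97, 7, 113, true, -128, [3, 4, 5, 12]⟩,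
⟨7, 113, 8, 129, true, -128, [3, 4, 12, 5]⟩,
⟨8, 129, 9, 145, true, -126, [3, 12, 4, 5]⟩,
⟨9, 145, 12, 193, true, -126, [12, 3, 4, 5]⟩,
⟨12, 193, 1, 16, true, -126, [3, 4, 5, 12]⟩,
⟨1, 16, 12, 191, true, -126, [12, 5, 4, 3]⟩,
⟨12, 191, 9, 143, true, -126, [5, 4, 3, 12]⟩,
⟨9, 143, 8, 127, true, -126, [5, 4, 12, 3]⟩,
⟨8, 127, 7, 111, true, -124, [5, 12, 4, 3]⟩,
⟨7, 111, 6, 95, true, -124, [12, 5, 4, 3]⟩,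
⟨6, 95, 5, 79, true, -124, [5, 4, 3, 12]⟩,
⟨5, 79, 9, 142, true, -125, [4, 3, 12, 5]⟩,
⟨9, 142, 4, 63, true, -125, [4, 12, 3, 5]⟩,
⟨4, 63, 7, 110, true, -123, [3, 5, 12, 4]⟩,
⟨7, 110, 3, 47, true, -123, [3, 12, 5, 4]⟩,
⟨3, 47, 8, 125, true, -124, [5, 4, 12, 3]⟩,
⟨8, 125, 5, 78, true, -122, [5, 12, 4, 3]⟩,
⟨5, 78, 12, 187, true, -123, [12, 4, 3, 5]⟩,
⟨12, 187, 7, 109, true, -123, [4, 3, 5, 12]⟩,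
⟨7, 109, 9, 140, true, -123, [4, 3, 12, 5]⟩,
⟨9, 140, 2, 31, true, -123, [4, 12, 3, 5]⟩,
⟨2, 31, 9, 139, true, -121, [5, 3, 12, 4]⟩,
⟨9, 139, 7, 108, true, -121, [5, 12, 3, 4]⟩,
⟨7, 108, 12, 185, true, -121, [12, 5, 3, 4]⟩,
⟨12, 185, 5, 77, true, -121, [5, 3, 4, 12]⟩,
⟨5, 77, 8, 123, true, -122, [3, 4, 12, 5]⟩,
⟨8, 123, 3, 46, true, -120, [3, 12, 4, 5]⟩,
⟨3, 46, 7, 107, true, -121, [4, 5, 12, 3]⟩,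
⟨7, 107, 4, 61, true, -121, [4, 12, 5, 3]⟩,
⟨4, 61, 9, 137, true, -119, [5, 3, 12, 4]⟩,
⟨9, 137, 5, 76, true, -119, [5, 12, 3, 4]⟩,
⟨5, 76, 6, 91, true, -120, [12, 3, 4, 5]⟩,
⟨6, 91, 7, 106, true, -120, [3, 4, 5, 12]⟩,
⟨7, 106, 8, 121, true, -120, [3, 4, 12, 5]⟩,
⟨8, 121, 9, 136, true, -118, [3, 12, 4, 5]⟩,
⟨9, 136, 12, 181, true, -118, [12, 3, 4, 5]⟩,
⟨12, 181, 1, 15, true, -118, [3, 4, 5, 12]⟩]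

def cellsP8 : List Cell := [
⟨1, 15, 12, 179, true, -118, [12, 5, 4, 3]⟩,
⟨12, 179, 9, 134, true, -118, [5, 4, 3, 12]⟩,
⟨9, 134, 8, 119, true, -118, [5, 4, 12, 3]⟩,
⟨8, 119, 7, 104, true, -116, [5, 12, 4, 3]⟩,
⟨7, 104, 6, 89, true, -116, [12, 5, 4, 3]⟩,
⟨6, 89, 5, 74, true, -116, [5, 4, 3, 12]⟩,
⟨5, 74, 9, 133, true, -117, [4, 3, 12, 5]⟩,
⟨9, 133, 4, 59, true, -117, [4, 12, 3, 5]⟩,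
⟨4, 59, 7, 103, true, -115, [3, 5, 12, 4]⟩,
⟨7, 103, 3, 44, true, -115, [3, 12, 5, 4]⟩,
⟨3, 44, 8, 117, true, -116, [5, 4, 12, 3]⟩,
⟨8, 117, 5, 73, true, -114, [5, 12, 4, 3]⟩,
⟨5, 73, 12, 175, true, -115, [12, 4, 3, 5]⟩,
⟨12, 175, 7, 102, true, -115, [4, 3, 5, 12]⟩,
⟨7, 102, 9, 131, true, -115, [4, 3, 12, 5]⟩,
⟨9, 131, 2, 29, true, -115, [4, 12, 3, 5]⟩,
⟨2, 29, 9, 130, true, -113, [5, 3, 12, 4]⟩,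
⟨9, 130, 7, 101, true, -113, [5, 12, 3, 4]⟩,
⟨7, 101, 12, 173, true, -113, [12, 5, 3, 4]⟩,
⟨12, 173, 5, 72, true, -113, [5, 3, 4, 12]⟩,
⟨5, 72, 8, 115, true, -114, [3, 4, 12, 5]⟩,
⟨8, 115, 3, 43, true, -112, [3, 12, 4, 5]⟩,
⟨3, 43, 7, 100, true, -113, [4, 5, 12, 3]⟩,
⟨7, 100, 4, 57, true, -113, [4, 12, 5, 3]⟩,
⟨4, 57, 9, 128, true, -111, [5, 3, 12, 4]⟩,
⟨9, 128, 5, 71, true, -111, [5, 12, 3, 4]⟩,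
⟨5, 71, 6, 85, true, -112, [12, 3, 4, 5]⟩,
⟨6, 85, 7, 99, true, -112, [3, 4, 5, 12]⟩,
⟨7, 99, 8, 113, true, -112, [3, 4, 12, 5]⟩,
⟨8, 113, 9, 127, true, -110, [3, 12, 4, 5]⟩,
⟨9, 127, 12, 169, true, -110, [12, 3, 4, 5]⟩,
⟨12, 169, 1, 14, true, -110, [3, 4, 5, 12]⟩,
⟨1, 14, 12, 167, true, -110, [12, 5, 4, 3]⟩,
⟨12, 167, 9, 125, true, -110, [5, 4, 3, 12]⟩,
⟨9, 125, 8, 111, true, -110, [5, 4, 12, 3]⟩,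
⟨8, 111, 7, 97, true, -108, [5, 12, 4, 3]⟩,
⟨7, 97, 6, 83, true, -108, [12, 5, 4, 3]⟩,
⟨6, 83, 5, 69, true, -108, [5, 4, 3, 12]⟩,
⟨5, 69, 9, 124, true, -109, [4, 3, 12, 5]⟩,
⟨9, 124, 4, 55, true, -109, [4, 12, 3, 5]⟩,
⟨4, 55, 7, 96, true, -107, [3, 5, 12, 4]⟩,
⟨7, 96, 3, 41, true, -107, [3, 12, 5, 4]⟩,
⟨3, 41, 8, 109, true, -108, [5, 4, 12, 3]⟩,
⟨8, 109, 5, 68, true, -106, [5, 12, 4, 3]⟩,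
⟨5, 68, 12, 163, true, -107, [12, 4, 3, 5]⟩,
⟨12, 163, 7, 95, true, -107, [4, 3, 5, 12]⟩,
⟨7, 95, 9, 122, true, -107, [4, 3, 12, 5]⟩,
⟨9, 122, 2, 27, true, -107, [4, 12, 3, 5]⟩,
⟨2, 27, 9, 121, true, -105, [5, 3, 12, 4]⟩,
⟨9, 121, 7, 94, true, -105, [5, 12, 3, 4]⟩,
⟨7, 94, 12, 161, true, -105, [12, 5, 3, 4]⟩,
⟨12, 161, 5, 67, true, -105, [5, 3, 4, 12]⟩,
⟨5, 67, 8, 107, true, -106, [3, 4, 12, 5]⟩,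
⟨8, 107, 3, 40, true, -104, [3, 12, 4, 5]⟩,
⟨3, 40, 7, 93, true, -105, [4, 5, 12, 3]⟩,
⟨7, 93, 4, 53, true, -105, [4, 12, 5, 3]⟩,
⟨4, 53, 9, 119, true, -103, [5, 3, 12, 4]⟩,
⟨9, 119, 5, 66, true, -103, [5, 12, 3, 4]⟩,
⟨5, 66, 6, 79, true, -104, [12, 3, 4, 5]⟩,
⟨6, 79, 7, 92, true, -104, [3, 4, 5, 12]⟩,
⟨7, 92, 8, 105, true, -104, [3, 4, 12, 5]⟩,
⟨8, 105, 9, 118, true, -102, [3, 12, 4, 5]⟩,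
⟨9, 118, 12, 157, true, -102, [12, 3, 4, 5]⟩,
⟨12, 157, 1, 13, true, -102, [3, 4, 5, 12]⟩,
⟨1, 13, 12, 155, true, -102, [12, 5, 4, 3]⟩,
⟨12, 155, 9, 116, true, -102, [5, 4, 3, 12]⟩,
⟨9, 116, 8, 103, true, -102, [5, 4, 12, 3]⟩,
⟨8, 103, 7, 90, true, -100, [5, 12, 4, 3]⟩,
⟨7, 90, 6, 77, true, -100, [12, 5, 4, 3]⟩,
⟨6, 77, 5, 64, true, -100, [5, 4, 3, 12]⟩,
⟨5, 64, 9, 115, true, -101, [4, 3, 12, 5]⟩,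
⟨9, 115, 4, 51, true, -101, [4, 12, 3, 5]⟩,
⟨4, 51, 7, 89, true, -99, [3, 5, 12, 4]⟩,
⟨7, 89, 3, 38, true, -99, [3, 12, 5, 4]⟩,
⟨3, 38, 8, 101, true, -100, [5, 4, 12, 3]⟩,
⟨8, 101, 5, 63, true, -98, [5, 12, 4, 3]⟩,
⟨5, 63, 12, 151, true, -99, [12, 4, 3, 5]⟩,
⟨12, 151, 7, 88, true, -99, [4, 3, 5, 12]⟩,
⟨7, 88, 9, 113, true, -99, [4, 3, 12, 5]⟩,
⟨9, 113, 2, 25, true, -99, [4, 12, 3, 5]⟩,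
⟨2, 25, 9, 112, true, -97, [5, 3, 12, 4]⟩,
⟨9, 112, 7, 87, true, -97, [5, 12, 3, 4]⟩,
⟨7, 87, 12, 149, true, -97, [12, 5, 3, 4]⟩,
⟨12, 149, 5, 62, true, -97, [5, 3, 4, 12]⟩,
⟨5, 62, 8, 99, true, -98, [3, 4, 12, 5]⟩,
⟨8, 99, 3, 37, true, -96, [3, 12, 4, 5]⟩,
⟨3, 37, 7, 86, true, -97, [4, 5, 12, 3]⟩,
⟨7, 86, 4, 49, true, -97, [4, 12, 5, 3]⟩,
⟨4, 49, 9, 110, true, -95, [5, 3, 12, 4]⟩,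
⟨9, 110, 5, 61, true, -95, [5, 12, 3, 4]⟩,
⟨5, 61, 6, 73, true, -96, [12, 3, 4, 5]⟩,
⟨6, 73, 7, 85, true, -96, [3, 4, 5, 12]⟩,
⟨7, 85, 8, 97, true, -96, [3, 4, 12, 5]⟩,
⟨8, 97, 9, 109, true, -94, [3, 12, 4, 5]⟩,
⟨9, 109, 12, 145, true, -94, [12, 3, 4, 5]⟩,
⟨12, 145, 1, 12, true, -94, [3, 4, 5, 12]⟩,
⟨1, 12, 12, 143, true, -94, [12, 5, 4, 3]⟩,
⟨12, 143, 9, 107, true, -94, [5, 4, 3, 12]⟩,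
⟨9, 107, 8, 95, true, -94, [5, 4, 12, 3]⟩,
⟨8, 95, 7, 83, true, -92, [5, 12, 4, 3]⟩]

def cellsP9 : List Cell := [
⟨7, 83, 6, 71, true, -92, [12, 5, 4, 3]⟩,
⟨6, 71, 5, 59, true, -92, [5, 4, 3, 12]⟩,
⟨5, 59, 9, 106, true, -93, [4, 3, 12, 5]⟩,
⟨9, 106, 4, 47, true, -93, [4, 12, 3, 5]⟩,
⟨4, 47, 7, 82, true, -91, [3, 5, 12, 4]⟩,
⟨7, 82, 3, 35, true, -91, [3, 12, 5, 4]⟩,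
⟨3, 35, 8, 93, true, -92, [5, 4, 12, 3]⟩,
⟨8, 93, 5, 58, true, -90, [5, 12, 4, 3]⟩,
⟨5, 58, 12, 139, true, -91, [12, 4, 3, 5]⟩,
⟨12, 139, 7, 81, true, -91, [4, 3, 5, 12]⟩,
⟨7, 81, 9, 104, true, -91, [4, 3, 12, 5]⟩,
⟨9, 104, 2, 23, true, -91, [4, 12, 3, 5]⟩,
⟨2, 23, 9, 103, true, -89, [5, 3, 12, 4]⟩,
⟨9, 103, 7, 80, true, -89, [5, 12, 3, 4]⟩,
⟨7, 80, 12, 137, true, -89, [12, 5, 3, 4]⟩,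
⟨12, 137, 5, 57, true, -89, [5, 3, 4, 12]⟩,
⟨5, 57, 8, 91, true, -90, [3, 4, 12, 5]⟩,
⟨8, 91, 3, 34, true, -88, [3, 12, 4, 5]⟩,
⟨3, 34, 7, 79, true, -89, [4, 5, 12, 3]⟩,
⟨7, 79, 4, 45, true, -89, [4, 12, 5, 3]⟩,
⟨4, 45, 9, 101, true, -87, [5, 3, 12, 4]⟩,
⟨9, 101, 5, 56, true, -87, [5, 12, 3, 4]⟩,
⟨5, 56, 6, 67, true, -88, [12, 3, 4, 5]⟩,
⟨6, 67, 7, 78, true, -88, [3, 4, 5, 12]⟩,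
⟨7, 78, 8, 89, true, -88, [3, 4, 12, 5]⟩,
⟨8, 89, 9, 100, true, -86, [3, 12, 4, 5]⟩,
⟨9, 100, 12, 133, true, -86, [12, 3, 4, 5]⟩,
⟨12, 133, 1, 11, true, -86, [3, 4, 5, 12]⟩,
⟨1, 11, 12, 131, true, -86, [12, 5, 4, 3]⟩,
⟨12, 131, 9, 98, true, -86, [5, 4, 3, 12]⟩,
⟨9, 98, 8, 87, true, -86, [5, 4, 12, 3]⟩,
⟨8, 87, 7, 76, true, -84, [5, 12, 4, 3]⟩,
⟨7, 76, 6, 65, true, -84, [12, 5, 4, 3]⟩,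
⟨6, 65, 5, 54, true, -84, [5, 4, 3, 12]⟩,
⟨5, 54, 9, 97, true, -85, [4, 3, 12, 5]⟩,
⟨9, 97, 4, 43, true, -85, [4, 12, 3, 5]⟩,
⟨4, 43, 7, 75, true, -83, [3, 5, 12, 4]⟩,
⟨7, 75, 3, 32, true, -83, [3, 12, 5, 4]⟩,
⟨3, 32, 8, 85, true, -84, [5, 4, 12, 3]⟩,
⟨8, 85, 5, 53, true, -82, [5, 12, 4, 3]⟩,
⟨5, 53, 12, 127, true, -83, [12, 4, 3, 5]⟩,
⟨12, 127, 7, 74, true, -83, [4, 3, 5, 12]⟩,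
⟨7, 74, 9, 95, true, -83, [4, 3, 12, 5]⟩,
⟨9, 95, 2, 21, true, -83, [4, 12, 3, 5]⟩,
⟨2, 21, 9, 94, true, -81, [5, 3, 12, 4]⟩,
⟨9, 94, 7, 73, true, -81, [5, 12, 3, 4]⟩,
⟨7, 73, 12, 125, true, -81, [12, 5, 3, 4]⟩,
⟨12, 125, 5, 52, true, -81, [5, 3, 4, 12]⟩,
⟨5, 52, 8, 83, true, -82, [3, 4, 12, 5]⟩,
⟨8, 83, 3, 31, true, -80, [3, 12, 4, 5]⟩,
⟨3, 31, 7, 72, true, -81, [4, 5, 12, 3]⟩,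
⟨7, 72, 4, 41, true, -81, [4, 12, 5, 3]⟩,
⟨4, 41, 9, 92, true, -79, [5, 3, 12, 4]⟩,
⟨9, 92, 5, 51, true, -79, [5, 12, 3, 4]⟩,
⟨5, 51, 6, 61, true, -80, [12, 3, 4, 5]⟩,
⟨6, 61, 7, 71, true, -80, [3, 4, 5, 12]⟩,
⟨7, 71, 8, 81, true, -80, [3, 4, 12, 5]⟩,
⟨8, 81, 9, 91, true, -78, [3, 12, 4, 5]⟩,
⟨9, 91, 12, 121, true, -78, [12, 3, 4, 5]⟩,
⟨12, 121, 1, 10, true, -78, [3, 4, 5, 12]⟩,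
⟨1, 10, 12, 119, true, -78, [12, 5, 4, 3]⟩,
⟨12, 119, 9, 89, true, -78, [5, 4, 3, 12]⟩,
⟨9, 89, 8, 79, true, -78, [5, 4, 12, 3]⟩,
⟨8, 79, 7, 69, true, -76, [5, 12, 4, 3]⟩,
⟨7, 69, 6, 59, true, -76, [12, 5, 4, 3]⟩,
⟨6, 59, 5, 49, true, -76, [5, 4, 3, 12]⟩,
⟨5, 49, 9, 88, true, -77, [4, 3, 12, 5]⟩,
⟨9, 88, 4, 39, true, -77, [4, 12, 3, 5]⟩,
⟨4, 39, 7, 68, true, -75, [3, 5, 12, 4]⟩,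
⟨7, 68, 3, 29, true, -75, [3, 12, 5, 4]⟩,
⟨3, 29, 8, 77, true, -76, [5, 4, 12, 3]⟩,
⟨8, 77, 5, 48, true, -74, [5, 12, 4, 3]⟩,
⟨5, 48, 12, 115, true, -75, [12, 4, 3, 5]⟩,
⟨12, 115, 7, 67, true, -75, [4, 3, 5, 12]⟩,
⟨7, 67, 9, 86, true, -75, [4, 3, 12, 5]⟩,
⟨9, 86, 2, 19, true, -75, [4, 12, 3, 5]⟩,
⟨2, 19, 9, 85, true, -73, [5, 3, 12, 4]⟩,
⟨9, 85, 7, 66, true, -73, [5, 12, 3, 4]⟩,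
⟨7, 66, 12, 113, true, -73, [12, 5, 3, 4]⟩,
⟨12, 113, 5, 47, true, -73, [5, 3, 4, 12]⟩,
⟨5, 47, 8, 75, true, -74, [3, 4, 12, 5]⟩,
⟨8, 75, 3, 28, true, -72, [3, 12, 4, 5]⟩,
⟨3, 28, 7, 65, true, -73, [4, 5, 12, 3]⟩,
⟨7, 65, 4, 37, true, -73, [4, 12, 5, 3]⟩,
⟨4, 37, 9, 83, true, -71, [5, 3, 12, 4]⟩,
⟨9, 83, 5, 46, true, -71, [5, 12, 3, 4]⟩,
⟨5, 46, 6, 55, true, -72, [12, 3, 4, 5]⟩,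
⟨6, 55, 7, 64, true, -72, [3, 4, 5, 12]⟩,
⟨7, 64, 8, 73, true, -72, [3, 4, 12, 5]⟩,
⟨8, 73, 9, 82, true, -70, [3, 12, 4, 5]⟩,
⟨9, 82, 12, 109, true, -70, [12, 3, 4, 5]⟩,
⟨12, 109, 1, 9, true, -70, [3, 4, 5, 12]⟩,
⟨1, 9, 12, 107, true, -70, [12, 5, 4, 3]⟩,
⟨12, 107, 9, 80, true, -70, [5, 4, 3, 12]⟩,
⟨9, 80, 8, 71, true, -70, [5, 4, 12, 3]⟩,
⟨8, 71, 7, 62, true, -68, [5, 12, 4, 3]⟩,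
⟨7, 62, 6, 53, true, -68, [12, 5, 4, 3]⟩,
⟨6, 53, 5, 44, true, -68, [5, 4, 3, 12]⟩,
⟨5, 44, 9, 79, true, -69, [4, 3, 12, 5]⟩,
⟨9, 79, 4, 35, true, -69, [4, 12, 3, 5]⟩]

def cellsP10 : List Cell := [
⟨4, 35, 7, 61, true, -67, [3, 5, 12, 4]⟩,
⟨7, 61, 3, 26, true, -67, [3, 12, 5, 4]⟩,
⟨3, 26, 8, 69, true, -68, [5, 4, 12, 3]⟩,
⟨8, 69, 5, 43, true, -66, [5, 12, 4, 3]⟩,
⟨5, 43, 12, 103, true, -67, [12, 4, 3, 5]⟩,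
⟨12, 103, 7, 60, true, -67, [4, 3, 5, 12]⟩,
⟨7, 60, 9, 77, true, -67, [4, 3, 12, 5]⟩,
⟨9, 77, 2, 17, true, -67, [4, 12, 3, 5]⟩,
⟨2, 17, 9, 76, true, -65, [5, 3, 12, 4]⟩,
⟨9, 76, 7, 59, true, -65, [5, 12, 3, 4]⟩,
⟨7, 59, 12, 101, true, -65, [12, 5, 3, 4]⟩,
⟨12, 101, 5, 42, true, -65, [5, 3, 4, 12]⟩,
⟨5, 42, 8, 67, true, -66, [3, 4, 12, 5]⟩,
⟨8, 67, 3, 25, true, -64, [3, 12, 4, 5]⟩,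
⟨3, 25, 7, 58, true, -65, [4, 5, 12, 3]⟩,
⟨7, 58, 4, 33, true, -65, [4, 12, 5, 3]⟩,
⟨4, 33, 9, 74, true, -63, [5, 3, 12, 4]⟩,
⟨9, 74, 5, 41, true, -63, [5, 12, 3, 4]⟩,
⟨5, 41, 6, 49, true, -64, [12, 3, 4, 5]⟩,
⟨6, 49, 7, 57, true, -64, [3, 4, 5, 12]⟩,
⟨7, 57, 8, 65, true, -64, [3, 4, 12, 5]⟩,
⟨8, 65, 9, 73, true, -62, [3, 12, 4, 5]⟩,
⟨9, 73, 12, 97, true, -62, [12, 3, 4, 5]⟩,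
⟨12, 97, 1, 8, true, -62, [3, 4, 5, 12]⟩,
⟨1, 8, 12, 95, true, -62, [12, 5, 4, 3]⟩,
⟨12, 95, 9, 71, true, -62, [5, 4, 3, 12]⟩,
⟨9, 71, 8, 63, true, -62, [5, 4, 12, 3]⟩,
⟨8, 63, 7, 55, true, -60, [5, 12, 4, 3]⟩,
⟨7, 55, 6, 47, true, -60, [12, 5, 4, 3]⟩,
⟨6, 47, 5, 39, true, -60, [5, 4, 3, 12]⟩,
⟨5, 39, 9, 70, true, -61, [4, 3, 12, 5]⟩,
⟨9, 70, 4, 31, true, -61, [4, 12, 3, 5]⟩,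
⟨4, 31, 7, 54, true, -59, [3, 5, 12, 4]⟩,
⟨7, 54, 3, 23, true, -59, [3, 12, 5, 4]⟩,
⟨3, 23, 8, 61, true, -60, [5, 4, 12, 3]⟩,
⟨8, 61, 5, 38, true, -58, [5, 12, 4, 3]⟩,
⟨5, 38, 12, 91, true, -59, [12, 4, 3, 5]⟩,
⟨12, 91, 7, 53, true, -59, [4, 3, 5, 12]⟩,
⟨7, 53, 9, 68, true, -59, [4, 3, 12, 5]⟩,
⟨9, 68, 2, 15, true, -59, [4, 12, 3, 5]⟩,
⟨2, 15, 9, 67, true, -57, [5, 3, 12, 4]⟩,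
⟨9, 67, 7, 52, true, -57, [5, 12, 3, 4]⟩,
⟨7, 52, 12, 89, true, -57, [12, 5, 3, 4]⟩,
⟨12, 89, 5, 37, true, -57, [5, 3, 4, 12]⟩,
⟨5, 37, 8, 59, true, -58, [3, 4, 12, 5]⟩,
⟨8, 59, 3, 22, true, -56, [3, 12, 4, 5]⟩,
⟨3, 22, 7, 51, true, -57, [4, 5, 12, 3]⟩,
⟨7, 51, 4, 29, true, -57, [4, 12, 5, 3]⟩,
⟨4, 29, 9, 65, true, -55, [5, 3, 12, 4]⟩,
⟨9, 65, 5, 36, true, -55, [5, 12, 3, 4]⟩,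
⟨5, 36, 6, 43, true, -56, [12, 3, 4, 5]⟩,
⟨6, 43, 7, 50, true, -56, [3, 4, 5, 12]⟩,
⟨7, 50, 8, 57, true, -56, [3, 4, 12, 5]⟩,
⟨8, 57, 9, 64, true, -54, [3, 12, 4, 5]⟩,
⟨9, 64, 12, 85, true, -54, [12, 3, 4, 5]⟩,
⟨12, 85, 1, 7, true, -54, [3, 4, 5, 12]⟩,
⟨1, 7, 12, 83, true, -54, [12, 5, 4, 3]⟩,
⟨12, 83, 9, 62, true, -54, [5, 4, 3, 12]⟩,
⟨9, 62, 8, 55, true, -54, [5, 4, 12, 3]⟩,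
⟨8, 55, 7, 48, true, -52, [5, 12, 4, 3]⟩,
⟨7, 48, 6, 41, true, -52, [12, 5, 4, 3]⟩,
⟨6, 41, 5, 34, true, -52, [5, 4, 3, 12]⟩,
⟨5, 34, 9, 61, true, -53, [4, 3, 12, 5]⟩,
⟨9, 61, 4, 27, true, -53, [4, 12, 3, 5]⟩,
⟨4, 27, 7, 47, true, -51, [3, 5, 12, 4]⟩,
⟨7, 47, 3, 20, true, -51, [3, 12, 5, 4]⟩,
⟨3, 20, 8, 53, true, -52, [5, 4, 12, 3]⟩,
⟨8, 53, 5, 33, true, -50, [5, 12, 4, 3]⟩,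
⟨5, 33, 12, 79, true, -51, [12, 4, 3, 5]⟩,
⟨12, 79, 7, 46, true, -51, [4, 3, 5, 12]⟩,
⟨7, 46, 9, 59, true, -51, [4, 3, 12, 5]⟩,
⟨9, 59, 2, 13, true, -51, [4, 12, 3, 5]⟩,
⟨2, 13, 9, 58, true, -49, [5, 3, 12, 4]⟩,
⟨9, 58, 7, 45, true, -49, [5, 12, 3, 4]⟩,
⟨7, 45, 12, 77, true, -49, [12, 5, 3, 4]⟩,
⟨12, 77, 5, 32, true, -49, [5, 3, 4, 12]⟩,
⟨5, 32, 8, 51, true, -50, [3, 4, 12, 5]⟩,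
⟨8, 51, 3, 19, true, -48, [3, 12, 4, 5]⟩,
⟨3, 19, 7, 44, true, -49, [4, 5, 12, 3]⟩,
⟨7, 44, 4, 25, true, -49, [4, 12, 5, 3]⟩,
⟨4, 25, 9, 56, true, -47, [5, 3, 12, 4]⟩,
⟨9, 56, 5, 31, true, -47, [5, 12, 3, 4]⟩,
⟨5, 31, 6, 37, true, -48, [12, 3, 4, 5]⟩,
⟨6, 37, 7, 43, true, -48, [3, 4, 5, 12]⟩,
⟨7, 43, 8, 49, true, -48, [3, 4, 12, 5]⟩,
⟨8, 49, 9, 55, true, -46, [3, 12, 4, 5]⟩,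
⟨9, 55, 12, 73, true, -46, [12, 3, 4, 5]⟩,
⟨12, 73, 1, 6, true, -46, [3, 4, 5, 12]⟩,
⟨1, 6, 12, 71, true, -46, [12, 5, 4, 3]⟩,
⟨12, 71, 9, 53, true, -46, [5, 4, 3, 12]⟩,
⟨9, 53, 8, 47, true, -46, [5, 4, 12, 3]⟩,
⟨8, 47, 7, 41, true, -44, [5, 12, 4, 3]⟩,
⟨7, 41, 6, 35, true, -44, [12, 5, 4, 3]⟩,
⟨6, 35, 5, 29, true, -44, [5, 4, 3, 12]⟩,
⟨5, 29, 9, 52, true, -45, [4, 3, 12, 5]⟩,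
⟨9, 52, 4, 23, true, -45, [4, 12, 3, 5]⟩,
⟨4, 23, 7, 40, true, -43, [3, 5, 12, 4]⟩,
⟨7, 40, 3, 17, true, -43, [3, 12, 5, 4]⟩,
⟨3, 17, 8, 45, true, -44, [5, 4, 12, 3]⟩,
⟨8, 45, 5, 28, true, -42, [5, 12, 4, 3]⟩]

def cellsP11 : List Cell := [
⟨5, 28, 12, 67, true, -43, [12, 4, 3, 5]⟩,
⟨12, 67, 7, 39, true, -43, [4, 3, 5, 12]⟩,
⟨7, 39, 9, 50, true, -43, [4, 3, 12, 5]⟩,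
⟨9, 50, 2, 11, true, -43, [4, 12, 3, 5]⟩,
⟨2, 11, 9, 49, true, -41, [5, 3, 12, 4]⟩,
⟨9, 49, 7, 38, true, -41, [5, 12, 3, 4]⟩,
⟨7, 38, 12, 65, true, -41, [12, 5, 3, 4]⟩,
⟨12, 65, 5, 27, true, -41, [5, 3, 4, 12]⟩,
⟨5, 27, 8, 43, true, -42, [3, 4, 12, 5]⟩,
⟨8, 43, 3, 16, true, -40, [3, 12, 4, 5]⟩,
⟨3, 16, 7, 37, true, -41, [4, 5, 12, 3]⟩,
⟨7, 37, 4, 21, true, -41, [4, 12, 5, 3]⟩,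
⟨4, 21, 9, 47, true, -39, [5, 3, 12, 4]⟩,
⟨9, 47, 5, 26, true, -39, [5, 12, 3, 4]⟩,
⟨5, 26, 6, 31, true, -40, [12, 3, 4, 5]⟩,
⟨6, 31, 7, 36, true, -40, [3, 4, 5, 12]⟩,
⟨7, 36, 8, 41, true, -40, [3, 4, 12, 5]⟩,
⟨8, 41, 9, 46, true, -38, [3, 12, 4, 5]⟩,
⟨9, 46, 12, 61, true, -38, [12, 3, 4, 5]⟩,
⟨12, 61, 1, 5, true, -38, [3, 4, 5, 12]⟩,
⟨1, 5, 12, 59, true, -38, [12, 5, 4, 3]⟩,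
⟨12, 59, 9, 44, true, -38, [5, 4, 3, 12]⟩,
⟨9, 44, 8, 39, true, -38, [5, 4, 12, 3]⟩,
⟨8, 39, 7, 34, true, -36, [5, 12, 4, 3]⟩,
⟨7, 34, 6, 29, true, -36, [12, 5, 4, 3]⟩,
⟨6, 29, 5, 24, true, -36, [5, 4, 3, 12]⟩,
⟨5, 24, 9, 43, true, -37, [4, 3, 12, 5]⟩,
⟨9, 43, 4, 19, true, -37, [4, 12, 3, 5]⟩,
⟨4, 19, 7, 33, true, -35, [3, 5, 12, 4]⟩,
⟨7, 33, 3, 14, true, -35, [3, 12, 5, 4]⟩,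
⟨3, 14, 8, 37, true, -36, [5, 4, 12, 3]⟩,
⟨8, 37, 5, 23, true, -34, [5, 12, 4, 3]⟩,
⟨5, 23, 12, 55, true, -35, [12, 4, 3, 5]⟩,
⟨12, 55, 7, 32, true, -35, [4, 3, 5, 12]⟩,
⟨7, 32, 9, 41, true, -35, [4, 3, 12, 5]⟩,
⟨9, 41, 2, 9, true, -35, [4, 12, 3, 5]⟩,
⟨2, 9, 9, 40, true, -33, [5, 3, 12, 4]⟩,
⟨9, 40, 7, 31, true, -33, [5, 12, 3, 4]⟩,
⟨7, 31, 12, 53, true, -33, [12, 5, 3, 4]⟩,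
⟨12, 53, 5, 22, true, -33, [5, 3, 4, 12]⟩,
⟨5, 22, 8, 35, true, -34, [3, 4, 12, 5]⟩,
⟨8, 35, 3, 13, true, -32, [3, 12, 4, 5]⟩,
⟨3, 13, 7, 30, true, -33, [4, 5, 12, 3]⟩,
⟨7, 30, 4, 17, true, -33, [4, 12, 5, 3]⟩,
⟨4, 17, 9, 38, true, -31, [5, 3, 12, 4]⟩,
⟨9, 38, 5, 21, true, -31, [5, 12, 3, 4]⟩,
⟨5, 21, 6, 25, true, -32, [12, 3, 4, 5]⟩,
⟨6, 25, 7, 29, true, -32, [3, 4, 5, 12]⟩,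
⟨7, 29, 8, 33, true, -32, [3, 4, 12, 5]⟩,
⟨8, 33, 9, 37, true, -30, [3, 12, 4, 5]⟩,
⟨9, 37, 12, 49, true, -30, [12, 3, 4, 5]⟩,
⟨12, 49, 1, 4, true, -30, [3, 4, 5, 12]⟩,
⟨1, 4, 12, 47, true, -30, [12, 5, 4, 3]⟩,
⟨12, 47, 9, 35, true, -30, [5, 4, 3, 12]⟩,
⟨9, 35, 8, 31, true, -30, [5, 4, 12, 3]⟩,
⟨8, 31, 7, 27, true, -28, [5, 12, 4, 3]⟩,
⟨7, 27, 6, 23, true, -28, [12, 5, 4, 3]⟩,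
⟨6, 23, 5, 19, true, -28, [5, 4, 3, 12]⟩,
⟨5, 19, 9, 34, true, -29, [4, 3, 12, 5]⟩,
⟨9, 34, 4, 15, true, -29, [4, 12, 3, 5]⟩,
⟨4, 15, 7, 26, true, -27, [3, 5, 12, 4]⟩,
⟨7, 26, 3, 11, true, -27, [3, 12, 5, 4]⟩,
⟨3, 11, 8, 29, true, -28, [5, 4, 12, 3]⟩,
⟨8, 29, 5, 18, true, -26, [5, 12, 4, 3]⟩,
⟨5, 18, 12, 43, true, -27, [12, 4, 3, 5]⟩,
⟨12, 43, 7, 25, true, -27, [4, 3, 5, 12]⟩,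
⟨7, 25, 9, 32, true, -27, [4, 3, 12, 5]⟩,
⟨9, 32, 2, 7, true, -27, [4, 12, 3, 5]⟩,
⟨2, 7, 9, 31, true, -25, [5, 3, 12, 4]⟩,
⟨9, 31, 7, 24, true, -25, [5, 12, 3, 4]⟩,
⟨7, 24, 12, 41, true, -25, [12, 5, 3, 4]⟩,
⟨12, 41, 5, 17, true, -25, [5, 3, 4, 12]⟩,
⟨5, 17, 8, 27, true, -26, [3, 4, 12, 5]⟩,
⟨8, 27, 3, 10, true, -24, [3, 12, 4, 5]⟩,
⟨3, 10, 7, 23, true, -25, [4, 5, 12, 3]⟩,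
⟨7, 23, 4, 13, true, -25, [4, 12, 5, 3]⟩,
⟨4, 13, 9, 29, true, -23, [5, 3, 12, 4]⟩,
⟨9, 29, 5, 16, true, -23, [5, 12, 3, 4]⟩,
⟨5, 16, 6, 19, true, -24, [12, 3, 4, 5]⟩,
⟨6, 19, 7, 22, true, -24, [3, 4, 5, 12]⟩,
⟨7, 22, 8, 25, true, -24, [3, 4, 12, 5]⟩,
⟨8, 25, 9, 28, true, -22, [3, 12, 4, 5]⟩,
⟨9, 28, 12, 37, true, -22, [12, 3, 4, 5]⟩,
⟨12, 37, 1, 3, true, -22, [3, 4, 5, 12]⟩,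
⟨1, 3, 12, 35, true, -22, [12, 5, 4, 3]⟩,
⟨12, 35, 9, 26, true, -22, [5, 4, 3, 12]⟩,
⟨9, 26, 8, 23, true, -22, [5, 4, 12, 3]⟩,
⟨8, 23, 7, 20, true, -20, [5, 12, 4, 3]⟩,
⟨7, 20, 6, 17, true, -20, [12, 5, 4, 3]⟩,
⟨6, 17, 5, 14, true, -20, [5, 4, 3, 12]⟩,
⟨5, 14, 9, 25, true, -21, [4, 3, 12, 5]⟩,
⟨9, 25, 4, 11, true, -21, [4, 12, 3, 5]⟩,
⟨4, 11, 7, 19, true, -19, [3, 5, 12, 4]⟩,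
⟨7, 19, 3, 8, true, -19, [3, 12, 5, 4]⟩,
⟨3, 8, 8, 21, true, -20, [5, 4, 12, 3]⟩,
⟨8, 21, 5, 13, true, -18, [5, 12, 4, 3]⟩,
⟨5, 13, 12, 31, true, -19, [12, 4, 3, 5]⟩,
⟨12, 31, 7, 18, true, -19, [4, 3, 5, 12]⟩,
⟨7, 18, 9, 23, true, -19, [4, 3, 12, 5]⟩,
⟨9, 23, 2, 5, true, -19, [4, 12, 3, 5]⟩]

def cellsP12 : List Cell := [
⟨2, 5, 9, 22, true, -17, [5, 3, 12, 4]⟩,
⟨9, 22, 7, 17, true, -17, [5, 12, 3, 4]⟩,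
⟨7, 17, 12, 29, true, -17, [12, 5, 3, 4]⟩,
⟨12, 29, 5, 12, true, -17, [5, 3, 4, 12]⟩,
⟨5, 12, 8, 19, true, -18, [3, 4, 12, 5]⟩,
⟨8, 19, 3, 7, true, -16, [3, 12, 4, 5]⟩,
⟨3, 7, 7, 16, true, -17, [4, 5, 12, 3]⟩,
⟨7, 16, 4, 9, true, -17, [4, 12, 5, 3]⟩,
⟨4, 9, 9, 20, true, -15, [5, 3, 12, 4]⟩,
⟨9, 20, 5, 11, true, -15, [5, 12, 3, 4]⟩,
⟨5, 11, 6, 13, true, -16, [12, 3, 4, 5]⟩,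
⟨6, 13, 7, 15, true, -16, [3, 4, 5, 12]⟩,
⟨7, 15, 8, 17, true, -16, [3, 4, 12, 5]⟩,
⟨8, 17, 9, 19, true, -14, [3, 12, 4, 5]⟩,
⟨9, 19, 12, 25, true, -14, [12, 3, 4, 5]⟩,
⟨12, 25, 1, 2, true, -14, [3, 4, 5, 12]⟩,
⟨1, 2, 12, 23, true, -14, [12, 5, 4, 3]⟩,
⟨12, 23, 9, 17, true, -14, [5, 4, 3, 12]⟩,
⟨9, 17, 8, 15, true, -14, [5, 4, 12, 3]⟩,
⟨8, 15, 7, 13, true, -12, [5, 12, 4, 3]⟩,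
⟨7, 13, 6, 11, true, -12, [12, 5, 4, 3]⟩,
⟨6, 11, 5, 9, true, -12, [5, 4, 3, 12]⟩,
⟨5, 9, 9, 16, true, -13, [4, 3, 12, 5]⟩,
⟨9, 16, 4, 7, true, -13, [4, 12, 3, 5]⟩,
⟨4, 7, 7, 12, true, -11, [3, 5, 12, 4]⟩,
⟨7, 12, 3, 5, true, -11, [3, 12, 5, 4]⟩,
⟨3, 5, 8, 13, true, -12, [5, 4, 12, 3]⟩,
⟨8, 13, 5, 8, true, -10, [5, 12, 4, 3]⟩,
⟨5, 8, 12, 19, true, -11, [12, 4, 3, 5]⟩,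
⟨12, 19, 7, 11, true, -11, [4, 3, 5, 12]⟩,
⟨7, 11, 9, 14, true, -11, [4, 3, 12, 5]⟩,
⟨9, 14, 2, 3, true, -11, [4, 12, 3, 5]⟩,
⟨2, 3, 9, 13, true, -9, [5, 3, 12, 4]⟩,
⟨9, 13, 7, 10, true, -9, [5, 12, 3, 4]⟩,
⟨7, 10, 12, 17, true, -9, [12, 5, 3, 4]⟩,
⟨12, 17, 5, 7, true, -9, [5, 3, 4, 12]⟩,
⟨5, 7, 8, 11, true, -10, [3, 4, 12, 5]⟩,
⟨8, 11, 3, 4, true, -8, [3, 12, 4, 5]⟩,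
⟨3, 4, 7, 9, true, -9, [4, 5, 12, 3]⟩,
⟨7, 9, 4, 5, true, -9, [4, 12, 5, 3]⟩,
⟨4, 5, 9, 11, true, -7, [5, 3, 12, 4]⟩,
⟨9, 11, 5, 6, true, -7, [5, 12, 3, 4]⟩,
⟨5, 6, 6, 7, true, -8, [12, 3, 4, 5]⟩,
⟨6, 7, 7, 8, true, -8, [3, 4, 5, 12]⟩,
⟨7, 8, 8, 9, true, -8, [3, 4, 12, 5]⟩,
⟨8, 9, 9, 10, true, -6, [3, 12, 4, 5]⟩,
⟨9, 10, 12, 13, true, -6, [12, 3, 4, 5]⟩,
⟨12, 13, 1, 1, true, -6, [3, 4, 5, 12]⟩,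
⟨1, 1, 12, 11, true, -6, [12, 5, 4, 3]⟩,
⟨12, 11, 9, 8, true, -6, [5, 4, 3, 12]⟩,
⟨9, 8, 8, 7, true, -6, [5, 4, 12, 3]⟩,
⟨8, 7, 7, 6, true, -4, [5, 12, 4, 3]⟩,
⟨7, 6, 6, 5, true, -4, [12, 5, 4, 3]⟩,
⟨6, 5, 5, 4, true, -4, [5, 4, 3, 12]⟩,
⟨5, 4, 9, 7, true, -5, [4, 3, 12, 5]⟩,
⟨9, 7, 4, 3, true, -5, [4, 12, 3, 5]⟩,
⟨4, 3, 7, 5, true, -3, [3, 5, 12, 4]⟩,
⟨7, 5, 3, 2, true, -3, [3, 12, 5, 4]⟩,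
⟨3, 2, 8, 5, true, -4, [5, 4, 12, 3]⟩,
⟨8, 5, 5, 3, true, -2, [5, 12, 4, 3]⟩,
⟨5, 3, 12, 7, true, -3, [12, 4, 3, 5]⟩,
⟨12, 7, 7, 4, true, -3, [4, 3, 5, 12]⟩,
⟨7, 4, 9, 5, true, -3, [4, 3, 12, 5]⟩,
⟨9, 5, 2, 1, true, -3, [4, 12, 3, 5]⟩,
⟨2, 1, 9, 4, true, -1, [5, 3, 12, 4]⟩,
⟨9, 4, 7, 3, true, -1, [5, 12, 3, 4]⟩,
⟨7, 3, 12, 5, true, -1, [12, 5, 3, 4]⟩,
⟨12, 5, 5, 2, true, -1, [5, 3, 4, 12]⟩,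
⟨5, 2, 8, 3, true, -2, [3, 4, 12, 5]⟩,
⟨8, 3, 3, 1, true, 0, [3, 12, 4, 5]⟩,
⟨3, 1, 7, 2, true, -1, [4, 5, 12, 3]⟩,
⟨7, 2, 4, 1, true, -1, [4, 12, 5, 3]⟩,
⟨4, 1, 9, 2, true, 1, [5, 3, 12, 4]⟩,
⟨9, 2, 5, 1, true, 1, [5, 12, 3, 4]⟩,
⟨5, 1, 6, 1, true, 0, [12, 3, 4, 5]⟩,
⟨6, 1, 13, 2, false, 0, [3, 4, 5, 12]⟩,
⟨13, 2, 20, 3, false, -1, [3, 4, 5, 12]⟩,
⟨20, 3, 7, 1, false, -2, [3, 4, 5, 12]⟩,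
⟨7, 1, 8, 1, false, -2, [3, 4, 12, 5]⟩,
⟨8, 1, 9, 1, false, 0, [3, 12, 4, 5]⟩,
⟨9, 1, 12, 1, false, 0, [12, 3, 4, 5]⟩]

def cells : List Cell := cellsP0 ++ cellsP1 ++ cellsP2 ++ cellsP3 ++ cellsP4 ++ cellsP5 ++ cellsP6 ++ cellsP7 ++ cellsP8 ++ cellsP9 ++ cellsP10 ++ cellsP11 ++ cellsP12

end Pool.Agent.TH609.E3
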