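import Pool.Agent.TH609.E3.W170.Z1
import Pool.Agent.TH609.E3.W170.Z2
import Pool.Agent.TH609.E3.W170.Z3
import Pool.Agent.TH609.E3.W638.P1
import Pool.Agent.TH609.E3.W638.P2
import Pool.Agent.TH609.E3.W638.P3

/-!
# The two certificates
-/

set_option autoImplicit false

namespace Pool.Agent.TH609.E3

open Pool.Agent.TH609.E3.W170 Pool.Agent.TH609.E3.W638

/-- certificate on the line -/
theorem G3_cert : StG3 := by
  apply G3_of
  intro b hb
  interval_cases b
  · exact cert0
  · exact cert1
  · exact cert2
  · exact cert3
  · exact cert4
  · exact cert5
  · exact cert6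
  · exact cert7
  · exact cert8
  · exact cert9
  · exact cert10
  · exact cert11
  · exact cert12
  · exact cert13
  · exact cert14
  · exact cert15
  · exact cert16

/-- certificate at the poles -/
theorem R3_cert (h2 : StR2) : StR3 := by
  apply R3_of h2
  intro b hb
  interval_cases b
  · exact pcert0
  · exact pcert1
  · exact pcert2
  · exact pcert3
  · exact pcert4
  · exact pcert5
  · exact pcert6
  · exact pcert7
  · exact pcert8
  · exact pcert9
  · exact pcert10
  · exact pcert11
  · exact pcert12
  · exact pcert13
  · exact pcert14
  · exact pcert15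
  · exact pcert16

end Pool.Agent.TH609.E3
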