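import Pool.Agent.TH609.E3.StmA

/-!
# Elementary facts about the data
-/

set_option autoImplicit false

open Polynomial Pool.Agent.H337R2

namespace Pool.Agent.TH609.E3

lemma ho_ge {b : ℕ} (hb : nB ≤ b) : ho b = 120 := by
  unfold ho
  have h : ∀ c : ℕ, hL.length ≤ c → hL.getD c 120 = 120 := fun c hc => List.getD_eq_default _ _ hc
  rcases Nat.lt_or_ge nB b with h1 | h1
  · exact h b (by
      have : hL.length = nB + 1 := rfl
      omega)
  · have : b = nB := le_antisymm h1 hb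
    subst this
    rfl

lemma ho_lt {b : ℕ} (hb : b < nB) : ho b < ho (b + 1) := by
  have h : ∀ c < nB, ho c < ho (c + 1) := by decide +kernel
  exact h b hb

lemma ho_le (b : ℕ) : ho b ≤ ho (b + 1) := by
  rcases Nat.lt_or_ge b nB with h | h
  · exact (ho_lt h).le
  · rw [ho_ge h, ho_ge (by omega)]

lemma ho_mono : Monotone ho := monotone_nat_of_le_succ ho_le

lemma ho_zero : ho 0 = 0 := rfl

lemma ho_nB : ho nB = 120 := rfl

lemma ho_le' (b : ℕ) : ho b ≤ 120 := by
  rcases Nat.lt_or_ge b nB with h | h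
  · rw [← ho_nB]
    exact ho_mono h.le
  · rw [ho_ge h]

lemma sG_mono {b : ℕ} (hb : b < nB) : ∀ i ∈ Finset.range nN, sG b i ≤ sG (b + 1) i := by
  have h : ∀ c < nB, ∀ i ∈ Finset.range nN, sG c i ≤ sG (c + 1) i := by decide +kernel
  exact h b hb

lemma sum_sG {b : ℕ} (hb : b ≤ nB) : ∑ i ∈ Finset.range nN, sG b i = ho b := by
  have h : ∀ c < nB + 1, ∑ i ∈ Finset.range nN, sG c i = ho c := by decide +kernel
  exact h b (by omega)

lemma SB_succ {n b : ℕ} (hb : b < nB) : SB n (b + 1) = SB n b * TB n b ^ (n / 60) := by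
  unfold SB TB
  rw [← Finset.prod_pow, ← Finset.prod_mul_distrib]
  apply Finset.prod_congr rfl
  intro i hi
  rw [← pow_mul, ← pow_add, ← add_mul, Nat.add_sub_cancel' (sG_mono hb i hi)]

lemma cG_nonneg (i : ℕ) : 0 ≤ ((cG i : ℚ) : ℝ) := by
  unfold cG
  push_cast
  positivity

/-- the parameters of the nodes between the poles -/
lemma cG_ge {i : ℕ} (hi : nL ≤ i) (hi' : i < nN) : 2 ≤ ((cG i : ℚ) : ℝ) := by
  have h : ∀ j < nN, nL ≤ j → 20000 ≤ cN j := by decide +kernel
  have h1 : (20000 : ℝ) ≤ (cN i : ℝ) := by exact_mod_cast h i hi' hi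
  unfold cG
  push_cast
  linarith

lemma SS_eq : SS = ∑ b ∈ Finset.range nB, ((ho (b + 1) : ℤ) - ho b) *
    (((tG b : ℤ) - (TO : ℕ)) + ((tG (b + 1) : ℤ) - (TO : ℕ))) := by
  decide +kernel

lemma SS_nonneg : 0 ≤ SS := by decide +kernel

/-! ### positions -/

lemma stg_eq {n i b : ℕ} (hb : b < nB) (h1 : 2 * ho b * (n / 60) ≤ i)
    (h2 : i < 2 * ho (b + 1) * (n / 60)) : stg n i = b := by
  unfold stg
  have e : ((Finset.range nB).filter fun c => 2 * ho (c + 1) * (n / 60) ≤ i) = Finset.range b := by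
    ext c
    simp only [Finset.mem_filter, Finset.mem_range]
    constructor
    · rintro ⟨_, h4⟩
      by_contra h5
      have h6 : ho (b + 1) ≤ ho (c + 1) := ho_mono (by omega)
      have h7 : 2 * ho (b + 1) * (n / 60) ≤ 2 * ho (c + 1) * (n / 60) :=
        Nat.mul_le_mul_right _ (Nat.mul_le_mul_left _ h6)
      omega
    · intro h3
      refine ⟨by omega, ?_⟩
      have h6 : ho (c + 1) ≤ ho b := ho_mono (by omega)
      have h7 : 2 * ho (c + 1) * (n / 60) ≤ 2 * ho b * (n / 60) :=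
        Nat.mul_le_mul_right _ (Nat.mul_le_mul_left _ h6)
      omega
  rw [e, Finset.card_range]

lemma stg_top {n i : ℕ} (h : 240 * (n / 60) ≤ i) : stg n i = nB := by
  unfold stg
  have e : ((Finset.range nB).filter fun c => 2 * ho (c + 1) * (n / 60) ≤ i) = Finset.range nB := by
    apply Finset.filter_true_of_mem
    intro c _
    have h6 : ho (c + 1) ≤ 120 := ho_le' _
    have h7 : 2 * ho (c + 1) * (n / 60) ≤ 2 * 120 * (n / 60) :=
      Nat.mul_le_mul_right _ (Nat.mul_le_mul_left _ h6)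
    omega
  rw [e, Finset.card_range]

lemma exists_stage (n i : ℕ) : ∀ B : ℕ, i < 2 * ho B * (n / 60) →
    ∃ b < B, 2 * ho b * (n / 60) ≤ i ∧ i < 2 * ho (b + 1) * (n / 60) := by
  intro B
  induction B with
  | zero =>
    intro h
    rw [ho_zero] at h
    omega
  | succ B ih =>
    intro h
    rcases Nat.lt_or_ge i (2 * ho B * (n / 60)) with h1 | h1
    · obtain ⟨b, hb, h2⟩ := ih h1
      exact ⟨b, by omega, h2⟩
    · exact ⟨B, by omega, h1, h⟩

lemma loc_top {n i : ℕ} (h : 240 * (n / 60) ≤ i) : loc n i = (nB, 0, i - 240 * (n / 60)) := by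
  unfold loc
  rw [stg_top h, if_neg (lt_irrefl _)]

lemma loc_mid {n b x : ℕ} (hb : b < nB) (hx : x < 2 * (ho (b + 1) - ho b) * (n / 60)) :
    loc n (2 * ho b * (n / 60) + x) =
      (b, x / (2 * (ho (b + 1) - ho b)), x % (2 * (ho (b + 1) - ho b))) := by
  have h0 := ho_le b
  have e : 2 * ho (b + 1) * (n / 60) = 2 * ho b * (n / 60) + 2 * (ho (b + 1) - ho b) * (n / 60) := by
    rw [← add_mul, ← mul_add, Nat.add_sub_cancel' h0]
  have h : stg n (2 * ho b * (n / 60) + x) = b := stg_eq hb (by omega) (by omega)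
  unfold loc
  rw [h, if_pos hb, Nat.add_sub_cancel_left]

end Pool.Agent.TH609.E3
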