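import Pool.Agent.H337R2.LZ.Defs
import Pool.Agent.H336R2.HD.Defs
import Pool.Agent.H337R2.Cx3

/-!
# Irrationality exponent of `ζ(3)`: definitions

(Adapted from the starting files `Pool/Agent/W170/Z3`, with other parameters.)
`R(t) = ((8n)!)² / ((3n)! (5n)!) · ∏_{j=1}^{3n} (t+j) · ∏_{j=1}^{5n} (t+j) / ∏_{4n<k≤12n} (t+k)²`.
With the partial fractions `b_k / (t+k)² + c_k / (t+k)` of `R Q` (`∑ c_k = 0`)
`- ∑_{t ≥ -4n} (RQ)'(t) = 2 ρ ζ(3) - h3`, `ρ = ∑ b_k`. `NL n x Q = 2 x ρ - h3` is the same number with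
`ζ(3)` replaced by the rational number `x`. `DET n x m` is the Hankel determinant of this functional;
it is used with `m = 4 n`.
-/

open Polynomial Pool.Agent.H337R2

namespace Pool.Agent.TH609.E3

noncomputable section

/-- `⌊(y+1)²/4⌋` for `y > 0`, and `0` otherwise -/
abbrev TT := Pool.Agent.H336R2.HD.TT

/-- `q` is a denominator of `u` -/
abbrev QI := Pool.Agent.LZ.QI

/-- primes in `(lo n, hi n]` (for `hi ≤ 14`) -/
abbrev PR := Pool.Agent.LZ.PR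

/-- the poles are at `-k`, `4n < k ≤ 12n` -/
abbrev sF (n : ℕ) : Finset ℕ := Finset.Icc (4 * n + 1) (12 * n)

/-- multiplicities of the poles -/
abbrev mF : ℕ → ℕ := fun _ => 2

/-- `((8n)!)² / ((3n)! (5n)!)` -/
def cF (n : ℕ) : ℚ :=
  (((8 * n).factorial ^ 2 : ℕ) : ℚ) / (((3 * n).factorial * (5 * n).factorial : ℕ) : ℚ)

/-- numerator -/
def PF (n : ℕ) : ℚ[X] := C (cF n) * ((∏ j ∈ Finset.Icc 1 (3 * n), (X + C (j : ℚ))) *
  ∏ j ∈ Finset.Icc 1 (5 * n), (X + C (j : ℚ)))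

/-- `∑ b_k` -/
def rho (n : ℕ) (P : ℚ[X]) : ℚ := ∑ k ∈ sF n, pa (sF n) mF P k 2

/-- the part with the harmonic numbers -/
def h3 (n : ℕ) (P : ℚ[X]) : ℚ := ∑ k ∈ sF n,
  (2 * pa (sF n) mF P k 2 * hs 3 (k - 3 * n - 1) + pa (sF n) mF P k 1 * hs 2 (k - 3 * n - 1))

/-- the linear form as a function of the numerator -/
def xf (n : ℕ) (x : ℚ) (P : ℚ[X]) : ℚ := 2 * x * rho n P - h3 n P

lemma pa_add (s : Finset ℕ) (μ : ℕ → ℕ) (P Q : ℚ[X]) (k i : ℕ) :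
    pa s μ (P + Q) k i = pa s μ P k i + pa s μ Q k i :=
  Pool.Agent.LZ.pa_add s μ P Q k i

lemma pa_C_mul (s : Finset ℕ) (μ : ℕ → ℕ) (c : ℚ) (P : ℚ[X]) (k i : ℕ) :
    pa s μ (C c * P) k i = c * pa s μ P k i :=
  Pool.Agent.LZ.pa_C_mul s μ c P k i

lemma rho_add (n : ℕ) (P Q : ℚ[X]) : rho n (P + Q) = rho n P + rho n Q := by
  unfold rho
  rw [← Finset.sum_add_distrib]
  exact Finset.sum_congr rfl fun k _ => pa_add _ _ _ _ _ _

lemma rho_C_mul (n : ℕ) (c : ℚ) (P : ℚ[X]) : rho n (C c * P) = c * rho n P := by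
  unfold rho
  rw [Finset.mul_sum]
  exact Finset.sum_congr rfl fun k _ => pa_C_mul _ _ _ _ _ _

lemma h3_add (n : ℕ) (P Q : ℚ[X]) : h3 n (P + Q) = h3 n P + h3 n Q := by
  unfold h3
  rw [← Finset.sum_add_distrib]
  exact Finset.sum_congr rfl fun k _ => by rw [pa_add, pa_add]; ring

lemma h3_C_mul (n : ℕ) (c : ℚ) (P : ℚ[X]) : h3 n (C c * P) = c * h3 n P := by
  unfold h3
  rw [Finset.mul_sum]
  exact Finset.sum_congr rfl fun k _ => by rw [pa_C_mul, pa_C_mul]; ring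

lemma xf_add (n : ℕ) (x : ℚ) (P Q : ℚ[X]) : xf n x (P + Q) = xf n x P + xf n x Q := by
  unfold xf
  rw [rho_add, h3_add]; ring

lemma xf_C_mul (n : ℕ) (x : ℚ) (c : ℚ) (P : ℚ[X]) : xf n x (C c * P) = c * xf n x P := by
  unfold xf
  rw [rho_C_mul, h3_C_mul]; ring

/-- the functional -/
def NL (n : ℕ) (x : ℚ) : ℚ[X] →ₗ[ℚ] ℚ where
  toFun Q := xf n x (PF n * Q)
  map_add' P Q := by rw [mul_add, xf_add]
  map_smul' c P := by
    rw [RingHom.id_apply, Polynomial.smul_eq_C_mul, mul_left_comm, xf_C_mul, smul_eq_mul]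

lemma NL_apply (n : ℕ) (x : ℚ) (Q : ℚ[X]) : NL n x Q = xf n x (PF n * Q) := rfl

/-- Hankel determinant -/
def DET (n : ℕ) (x : ℚ) (m : ℕ) : ℚ :=
  (Matrix.of fun i j : Fin m => NL n x (X ^ (i.1 + j.1))).det

/-- the exponent `e_p(k)`: valuation of the constant, plus zeros, minus poles in the class of `k` -/
def eF (n p k : ℕ) : ℤ :=
  2 * ((8 * n / p : ℕ) : ℤ) - ((3 * n / p : ℕ) : ℤ) - ((5 * n / p : ℕ) : ℤ) + cnt p 1 (3 * n) k +
    cnt p 1 (5 * n) k - 2 * cnt p (4 * n + 1) (12 * n) k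

/-! ### Cells -/

/-- a cell `u0/v0 < p/n ≤ u1/v1`; `full`: all classes are charged; level `mu`; `od`: the thresholds
`3, 4, 5, 12` in increasing order of the residues `a n mod p` -/
structure Cell where
  u0 : ℕ
  v0 : ℕ
  u1 : ℕ
  v1 : ℕ
  full : Bool
  mu : ℤ
  od : List ℕ

/-- `⌊a n / p⌋` in the cell -/
def Cell.fl (c : Cell) (a : ℕ) : ℕ := a * c.v1 / c.u1

/-- weight of a threshold in `e` -/
def wtE : ℕ → ℤ
  | 3 => 1
  | 4 => 2
  | 5 => 1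
  | 12 => -2
  | _ => 0

/-- weight of a threshold in the number of sites in `(3n, 12n]` -/
def wtS : ℕ → ℤ
  | 3 => -1
  | 12 => 1
  | _ => 0

/-- cost of a class with exponent `e` and `s` sites in `(3n, 12n]` -/
def Cell.cost (c : Cell) (e s : ℤ) : ℤ :=
  if c.full then TT (1 - e - c.mu) else if 2 ≤ s then TT (1 - e - c.mu) else 0

/-- base exponent -/
def Cell.e0 (c : Cell) : ℤ := 2 * (c.fl 8 : ℤ) + 2 * (c.fl 4 : ℤ) - 2 * (c.fl 12 : ℤ)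

/-- the cost of the classes: pair `(A, B)` meaning `A n + B p`. `a`: last threshold passed (`0` at the start),
`e, s`: exponent and number of sites on the next interval -/
def Cell.go (c : Cell) : ℕ → ℤ → ℤ → List ℕ → ℤ × ℤ
  | a, e, s, [] => (- (a : ℤ) * c.cost e s, (1 + (c.fl a : ℤ)) * c.cost e s)
  | a, e, s, b :: l =>
    let r := c.go b (e - wtE b) (s - wtS b) l
    (r.1 + ((b : ℤ) - a) * c.cost e s, r.2 - ((c.fl b : ℤ) - c.fl a) * c.cost e s)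

/-- exponent of the cell: `AB.1 n + AB.2 p` -/
def Cell.AB (c : Cell) : ℤ × ℤ :=
  let r := c.go 0 (c.e0 + 2) ((c.fl 12 : ℤ) - c.fl 3) c.od
  (r.1 + 4 * c.mu, r.2)

/-- the factorial part: `2 ∑_{i < 4n} ⌊i/p⌋ = sf.1 n + sf.2 p` -/
def Cell.sf (c : Cell) : ℤ × ℤ := (8 * (c.fl 4 : ℤ), - ((c.fl 4 : ℤ) * (c.fl 4 + 1)))

/-- validity of a cell -/
def Cell.ok (c : Cell) : Bool :=
  decide (0 < c.u0) && decide (0 < c.v0) && decide (0 < c.u1) && decide (0 < c.v1) &&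
  decide (c.u0 * c.v1 < c.u1 * c.v0) &&
  ([3, 4, 5, 8, 12].all fun a => decide (a * c.v0 ≤ (c.fl a + 1) * c.u0)) &&
  (c.od.isPerm [3, 4, 5, 12]) &&
  ((List.zip c.od (c.od.drop 1)).all fun x =>
    decide (0 ≤ ((x.2 : ℤ) - x.1) * c.v0 - ((c.fl x.2 : ℤ) - c.fl x.1) * c.u0) &&
    decide (0 ≤ ((x.2 : ℤ) - x.1) * c.v1 - ((c.fl x.2 : ℤ) - c.fl x.1) * c.u1)) &&
  (c.full || decide ((c.fl 3 : ℤ) + (c.fl 5 : ℤ) - 2 * (c.fl 8 : ℤ) ≤ c.mu))

/-- limit for a cell -/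
def Cell.lim (c : Cell) : ℚ :=
  ((c.AB.1 + c.sf.1 : ℤ) : ℚ) * ((c.u1 : ℚ) / c.v1 - (c.u0 : ℚ) / c.v0) +
    ((c.AB.2 + c.sf.2 : ℤ) : ℚ) * (((c.u1 : ℚ) / c.v1) ^ 2 - ((c.u0 : ℚ) / c.v0) ^ 2) / 2

/-! ### Local objects for the non-vanishing at `n = p` -/

/-- local power series at the pole `j`, sites `j = 4, …, 11`: double zeros at the sites `0, 1, 2`, simple
zeros at the sites `3, 4` (the site `4` is both a zero and a double pole) -/
def ser (j e : ℕ) : PowerSeries ℚ :=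
  (∏ a ∈ Finset.range 3, (PowerSeries.X + PowerSeries.C ((a : ℚ) - j)) ^ 2) *
  (∏ a ∈ (Finset.Icc 3 4 : Finset ℕ), (PowerSeries.X + PowerSeries.C ((a : ℚ) - j))) *
  (∏ b ∈ (Finset.Icc 4 11).erase j, iv ((b : ℚ) - j) ^ 2) * (PowerSeries.X + PowerSeries.C (-(j : ℚ))) ^ e

/-- local functional on monomials: the part with the harmonic numbers -/
def Fm (e : ℕ) : ℚ :=
  - ∑ j ∈ Finset.Icc 4 11, (2 * PowerSeries.coeff 0 (ser j e) * hs 3 (j - 3) +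
    PowerSeries.coeff 1 (ser j e) * hs 2 (j - 3))

/-- local functional on monomials: the sum of the double residues -/
def rm (e : ℕ) : ℚ := 2 * ∑ j ∈ Finset.Icc 4 11, PowerSeries.coeff 0 (ser j e)

/-- the other classes, with multiplicity `c` -/
def OT (p r c : ℕ) : ℚ[X] := ∏ r' ∈ (Finset.Icc 1 p).erase r, (X + C (r' : ℚ)) ^ c

/-! ### Archimedean objects -/

/-- the point `-(n + 1/2) + i y` of the line -/
def zn (n : ℕ) (y : ℝ) : ℂ := zl y - (n : ℂ)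

/-- `R` on the line `Re t = -(n + 1/2)` -/
def Rn (n : ℕ) (y : ℝ) : ℂ := aeval (zn n y) (PF n) / aeval (zn n y) (QQ (sF n) mF)

/-- `|R|` on the line `Re t = -(n + 1/2)` -/
def NG (n : ℕ) (y : ℝ) : ℝ :=
  (((8 * n).factorial : ℕ) : ℝ) ^ 2 / ((((3 * n).factorial : ℕ) : ℝ) * (((5 * n).factorial : ℕ) : ℝ)) *
    ((∏ m ∈ Finset.Icc 1 (3 * n), ‖zn n y + (m : ℂ)‖) * ∏ m ∈ Finset.Icc 1 (5 * n), ‖zn n y + (m : ℂ)‖) /
    ∏ k ∈ Finset.Icc (4 * n + 1) (12 * n), ‖zn n y + (k : ℂ)‖ ^ 2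

/-- the exponential rate of `R` at the real point of the line -/
def PhiG : ℝ := 16 * Real.log 8 + 2 * Real.log 2 + 4 * Real.log 4 + 3 * Real.log 3 - 5 * Real.log 5 -
  22 * Real.log 11

/-- the coefficient of `(t+k)^(-2)` in `R`, `5n < k ≤ 12n` -/
def RK (n k : ℕ) : ℚ :=
  cF n * ((∏ j ∈ Finset.Icc 1 (3 * n), ((k : ℚ) - j)) * ∏ j ∈ Finset.Icc 1 (5 * n), ((k : ℚ) - j)) /
    ∏ m ∈ (sF n).erase k, ((m : ℚ) - k) ^ 2

/-- the linear polynomial `X + n + 1/2` -/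
def Lin (n : ℕ) : ℚ[X] := X + C ((n : ℚ) + 1 / 2)

end

end Pool.Agent.TH609.E3
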