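import Pool.Agent.TH609.E3.Defs

/-!
# Irrationality exponent of `ζ(3)`: the data of the archimedean certificate

Nodes `0, …, nL - 1`: quadratic polynomials `(X + n + 1/2)² + c n²`, zeros on the line `Re t = -(n + 1/2)`;
nodes `nL, …, nN - 1`: `(X + c n)²`, double zeros between the poles. All data are tested in the kernel.
-/

set_option autoImplicit false

open Polynomial Pool.Agent.H337R2

namespace Pool.Agent.TH609.E3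

noncomputable section

/-- the number of nodes on the line -/
abbrev nL : ℕ := 28

/-- the number of nodes -/
abbrev nN : ℕ := 36

/-- the number of stages -/
abbrev nB : ℕ := 16

/-- the node parameters, in units of `1/10000` -/
def cL : List ℕ :=
  [3298, 580, 6129, 1299, 16, 7308, 9207, 4007, 1889, 36905, 24885, 22808, 12129, 14417, 50257,
   4884, 45558, 2595, 17227, 33622, 8269, 941, 192, 30616, 10465, 19989, 40819, 27302, 98018,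
   100450, 103226, 95161, 91983, 106397, 60661, 87985]

/-- the node parameters, in units of `1/10000` -/
def cN (i : ℕ) : ℕ := cL.getD i 0

/-- the node parameters -/
def cG (i : ℕ) : ℚ := (cN i : ℚ) / 10000

/-- cumulative multiplicities (times `N = ⌊n/60⌋`) of the nodes at the stages -/
def sL : List (List ℕ) :=
  [[0, 0, 0, 0, 0, 0, 0, 0, 0, 0, 0, 0, 0, 0, 0, 0, 0, 0, 0, 0, 0, 0, 0, 0, 0, 0, 0, 0, 0, 0, 0, 0, 0, 0, 0, 0],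
   [0, 1, 0, 0, 1, 0, 0, 0, 0, 0, 0, 0, 0, 0, 0, 0, 0, 0, 0, 0, 0, 0, 1, 0, 0, 0, 0, 0, 0, 0, 0, 0, 0, 0, 0, 0],
   [0, 2, 0, 1, 2, 0, 0, 0, 1, 0, 0, 0, 0, 0, 0, 0, 0, 0, 0, 0, 0, 0, 1, 0, 0, 0, 0, 0, 0, 0, 0, 0, 0, 0, 0, 0],
   [0, 2, 0, 1, 2, 0, 0, 1, 1, 0, 0, 0, 0, 0, 0, 0, 0, 2, 0, 0, 0, 1, 2, 0, 0, 0, 0, 0, 0, 0, 0, 0, 0, 0, 0, 0],
   [1, 2, 1, 2, 2, 0, 0, 1, 1, 0, 0, 0, 0, 0, 0, 1, 0, 2, 0, 0, 0, 1, 3, 0, 0, 0, 0, 0, 0, 0, 0, 0, 0, 0, 0, 0],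
   [2, 4, 2, 2, 2, 1, 0, 1, 1, 0, 0, 0, 0, 0, 0, 1, 0, 2, 0, 0, 1, 1, 3, 0, 0, 0, 0, 0, 0, 0, 0, 0, 0, 0, 0, 0],
   [2, 4, 2, 2, 3, 1, 1, 1, 2, 0, 0, 0, 1, 0, 0, 2, 0, 2, 0, 0, 1, 1, 3, 0, 1, 0, 0, 0, 0, 0, 0, 0, 0, 0, 0, 0],
   [2, 4, 2, 2, 3, 2, 1, 1, 3, 0, 0, 0, 2, 2, 0, 3, 0, 2, 0, 0, 1, 1, 4, 0, 1, 0, 0, 0, 0, 0, 0, 0, 0, 0, 0, 0],
   [2, 4, 2, 3, 3, 2, 2, 2, 3, 0, 0, 0, 2, 2, 0, 3, 0, 2, 2, 0, 1, 1, 5, 0, 2, 1, 0, 0, 0, 0, 0, 0, 0, 0, 0, 0],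
   [2, 4, 3, 3, 3, 2, 2, 2, 3, 0, 1, 1, 3, 3, 0, 3, 0, 3, 2, 0, 1, 1, 6, 0, 2, 2, 0, 0, 0, 0, 0, 0, 0, 0, 0, 0],
   [2, 4, 3, 3, 4, 3, 2, 2, 4, 0, 1, 2, 3, 3, 0, 4, 0, 3, 3, 0, 1, 1, 6, 0, 2, 2, 0, 2, 0, 0, 0, 0, 0, 0, 0, 0],
   [2, 4, 3, 3, 4, 3, 2, 2, 4, 0, 1, 2, 3, 3, 0, 4, 0, 3, 4, 1, 1, 2, 6, 1, 3, 2, 0, 2, 1, 0, 0, 1, 1, 0, 0, 0],
   [3, 4, 3, 3, 4, 3, 2, 2, 4, 1, 1, 2, 3, 4, 0, 4, 0, 3, 4, 1, 1, 2, 6, 2, 3, 3, 0, 2, 1, 1, 0, 2, 2, 0, 0, 1],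
   [3, 4, 3, 3, 4, 3, 2, 2, 4, 2, 1, 2, 3, 5, 0, 4, 0, 3, 4, 1, 2, 2, 7, 2, 3, 3, 1, 3, 2, 2, 1, 2, 2, 0, 0, 2],
   [3, 4, 3, 4, 4, 3, 2, 2, 4, 2, 1, 3, 3, 5, 0, 5, 1, 3, 4, 2, 2, 2, 7, 2, 3, 3, 2, 3, 2, 2, 2, 3, 2, 1, 0, 4],
   [3, 4, 3, 5, 4, 3, 2, 2, 4, 2, 1, 3, 3, 5, 1, 5, 2, 3, 4, 2, 3, 2, 7, 3, 3, 4, 2, 3, 2, 2, 3, 4, 2, 2, 1, 5],
   [3, 4, 3, 5, 4, 3, 2, 2, 4, 2, 1, 4, 3, 5, 3, 5, 3, 3, 4, 2, 4, 3, 7, 3, 3, 4, 2, 3, 3, 2, 3, 4, 2, 4, 1, 7]]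

/-- cumulative multiplicity of the node `i` at the stage `b` -/
def sG (b i : ℕ) : ℕ := (sL.getD b []).getD i 0

/-- half the offsets of the stages -/
def hL : List ℕ := [0, 3, 7, 12, 17, 23, 29, 36, 44, 52, 60, 68, 77, 87, 98, 109, 120]

/-- half the offsets of the stages -/
def ho (b : ℕ) : ℕ := hL.getD b 120

/-- the shift of the binary exponents -/
abbrev TO : ℕ := 140

/-- the shifted binary exponents at the stages -/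
def tL : List ℕ := [140, 176, 209, 241, 267, 290, 311, 329, 344, 354, 355, 320, 274, 221, 157, 90, 19]

/-- the shifted binary exponent at the stage `b` -/
def tG (b : ℕ) : ℕ := tL.getD b 0

/-- the binary exponent for the poles -/
abbrev UU : ℕ := 2900

/-- `∑ (ho (b+1) - ho b) (t_b + t_{b+1})` for the unshifted exponents `t` -/
def SS : ℤ := 25516

/-- the factors `(c, e)` of the comparison product `∏ (1 + v/c²)^e` (unit `N = ⌊n/60⌋`) -/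
def FXG : List (ℚ × ℕ) :=
  [(21/20, 6), (23/20, 6), (25/20, 6), (27/20, 6), (29/20, 6), (31/20, 6), (33/20, 6), (35/20, 6), (37/20, 6),
   (39/20, 6), (21/10, 18), (23/10, 18), (25/10, 18), (27/10, 18), (29/10, 18), (31/10, 30), (33/10, 30),
   (35/10, 30), (37/10, 30), (39/10, 30), (41/10, 36), (43/10, 36), (45/10, 36), (47/10, 36), (49/10, 36),
   (21/4, 90), (23/4, 90), (25/4, 90), (27/4, 90), (15/2, 180), (17/2, 180), (19/2, 180), (21/2, 180),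
   (12, 240), (29/2, 360), (18, 480), (24, 960), (36, 1920), (60, 3840), (108, 7680), (220, 19200)]

/-- comparison product -/
def FXpG (v : ℝ) : ℝ := (FXG.map fun x => (1 + v / (x.1 : ℝ) ^ 2) ^ x.2).prod

/-- the node polynomials -/
def QB (n i : ℕ) : ℚ[X] :=
  if i < nL then Lin n ^ 2 + C (cG i * (n : ℚ) ^ 2) else (X + C (cG i * (n : ℚ))) ^ 2

/-- bound of the node polynomials on the line, divided by `n²`, at `v = (y/n)²` -/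
def nv (i : ℕ) (v : ℝ) : ℝ :=
  if i < nL then |((cG i : ℚ) : ℝ) - v| else (((cG i : ℚ) : ℝ) - 1) ^ 2 + v

/-- bound of the node polynomials at the poles, divided by `n²`, at `κ = k/n` -/
def nk (i : ℕ) (κ : ℝ) : ℝ :=
  if i < nL then (κ - 1) ^ 2 + ((cG i : ℚ) : ℝ) else (κ - ((cG i : ℚ) : ℝ)) ^ 2

/-- full product at the stage `b` -/
def SB (n b : ℕ) : ℚ[X] := ∏ i ∈ Finset.range nN, QB n i ^ (sG b i * (n / 60))

/-- the step from the stage `b` to the stage `b + 1`, degree `2 (ho (b+1) - ho b)` -/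
def TB (n b : ℕ) : ℚ[X] := ∏ i ∈ Finset.range nN, QB n i ^ (sG (b + 1) i - sG b i)

/-- the basis -/
def PA (n b m j : ℕ) : ℚ[X] := SB n b * TB n b ^ m * Lin n ^ j

/-- valid positions -/
def Pos (n b m j : ℕ) : Prop :=
  (b < nB ∧ m < n / 60 ∧ j < 2 * (ho (b + 1) - ho b)) ∨ (b = nB ∧ m = 0 ∧ j < 4 * n - 240 * (n / 60))

/-- the degree at a position -/
def dg (n b m j : ℕ) : ℕ := 2 * ho b * (n / 60) + 2 * (ho (b + 1) - ho b) * m + j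

/-- logarithm of the corner bound at the stage `b` -/
def la (C : ℝ) (K n b : ℕ) : ℝ :=
  Real.log C + K * Real.log n + n * PhiG + 4 * ho b * (n / 60 : ℕ) * Real.log n -
    ((tG b : ℝ) - (TO : ℕ)) * (n / 60 : ℕ) * Real.log 2

/-- the exponent of the bound at a position -/
def al (C : ℝ) (K n b m : ℕ) : ℝ :=
  (1 - (m : ℝ) / (n / 60 : ℕ)) * la C K n b + (m : ℝ) / (n / 60 : ℕ) * la C K n (b + 1)

end

end Pool.Agent.TH609.E3
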