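import Pool.Agent.TH609.E3.Defs

/-!
# Irrationality exponent of `ζ(3)`: the statements of the tasks
-/

open Polynomial Pool.Agent.H337R2 Filter Topology

namespace Pool.Agent.TH609.E3

/-! ### B. the linear form as an integral, and the sum of the residues -/

/-- B1: the sum over `t ≥ -n` (shifted to `t ≥ 0`) -/
def StB1 : Prop := ∀ {n : ℕ}, 1 ≤ n → ∀ (x : ℚ) (Q : ℚ[X]), Q.natDegree ≤ 8 * n - 2 →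
  ∃ F : ℝ, HasSum (fun t : ℕ => ((PowerSeries.coeff 1 (RS (Finset.Icc (3 * n + 1) (11 * n)) mF
      ((PF n * Q).comp (X - C (n : ℚ))) (t : ℚ)) : ℚ) : ℝ)) F ∧
    ((NL n x Q : ℚ) : ℝ) = -F + 2 * ((x : ℝ) - zr 3) * ((rho n (PF n * Q) : ℚ) : ℝ)

/-- R1: the sum of the double residues -/
def StR1 : Prop := ∀ {n : ℕ}, 1 ≤ n → ∀ Q : ℚ[X],
  |rho n (PF n * Q)| ≤ ∑ k ∈ Finset.Icc (5 * n + 1) (12 * n), RK n k * |Q.eval (-(k : ℚ))|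

/-- B3: archimedean bound of the linear form -/
def StB3 : Prop := ∃ C : ℝ, 0 < C ∧ ∀ n : ℕ, 1 ≤ n → ∀ x : ℚ, ∀ Q : ℚ[X], Q.natDegree ≤ 8 * n - 2 →
  ∀ B : ℝ, (∀ y : ℝ, NG n y * ‖aeval (zn n y) Q‖ * Real.exp (-(2 * Real.pi * |y|)) ≤ B * (1 + y ^ 2)⁻¹) →
  |((NL n x Q : ℚ) : ℝ)| ≤ C * B + 2 * |(x : ℝ) - zr 3| *
    ∑ k ∈ Finset.Icc (5 * n + 1) (12 * n), ((RK n k : ℚ) : ℝ) * |((Q.eval (-(k : ℚ)) : ℚ) : ℝ)|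

/-- R2: the double residues as binomial coefficients -/
def StR2 : Prop := ∀ {n k : ℕ}, 1 ≤ n → k ∈ Finset.Icc (5 * n + 1) (12 * n) →
  RK n k = ((k - 1).choose (3 * n) : ℚ) * ((k - 1).choose (5 * n) : ℚ) * (8 * n) ^ 2 *
    ((8 * n - 1).choose (k - 4 * n - 1) : ℚ) ^ 2

/-! ### C. p-adic size of the linear form -/

def StC1 : Prop := ∀ {n p : ℕ} [Fact p.Prime] (_ : 1 ≤ n) (_ : 12 * n < p ^ 2) (E : ℚ[X]) {k : ℕ}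
  (_ : k ∈ sF n) (A : ℚ) (_ : 0 ≤ A) (_ : PB p (p : ℚ) A (TS (-(k : ℚ)) E)) (i : ℕ),
  padicNorm p (pa (sF n) mF (PF n * E) k i) ≤ (p : ℚ) ^ (-eF n p k - i : ℤ) * A

def StC1i : Prop := ∀ {n p : ℕ} [Fact p.Prime] (_ : 1 ≤ n) (E : ℚ[X]) {k : ℕ}
  (_ : k ∈ sF n) (A : ℚ) (_ : 0 ≤ A) (_ : PB p 1 A (TS (-(k : ℚ)) E)) (i : ℕ)
  (_ : ∀ k' ∈ sF n, k' ≠ k → ¬ (p : ℤ) ∣ (k' : ℤ) - k),
  padicNorm p (pa (sF n) mF (PF n * E) k i) ≤ padicNorm p (cF n) * A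

def StC2 : Prop := ∀ {n p : ℕ} [Fact p.Prime] (_ : 1 ≤ n) (_ : 12 * n < p ^ 2) (q : ℕ) (x : ℚ)
  (_ : QI q x) (E : ℚ[X]) (W : ℚ) (_ : 0 ≤ W) (A : ℕ → ℚ) (_ : ∀ k, 0 ≤ A k)
  (_ : ∀ k ∈ sF n, PB p (p : ℚ) (A k) (TS (-(k : ℚ)) E))
  (_ : ∀ k ∈ sF n, PB p 1 1 (TS (-(k : ℚ)) E))
  (_ : ∀ k ∈ sF n, (p : ℚ) ^ (1 - eF n p k) * A k ≤ W ∨
    (padicNorm p (cF n) ≤ W ∧ k < 3 * n + 1 + p ∧ ∀ k' ∈ sF n, k' ≠ k → ¬ (p : ℤ) ∣ (k' : ℤ) - k)),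
  padicNorm p ((q : ℚ) * xf n x (PF n * E)) ≤ W

def StC3 : Prop := ∀ {n p : ℕ} [Fact p.Prime] (_ : 1 ≤ n) (q : ℕ) (x : ℚ) (_ : QI q x)
  (E : ℚ[X]) (A : ℚ) (_ : 0 ≤ A)
  (_ : ∀ k ∈ sF n, PB p ((16 * n + 1 : ℕ) : ℚ) A (TS (-(k : ℚ)) E)),
  padicNorm p ((q : ℚ) * xf n x (PF n * E)) ≤ ((16 * n + 1 : ℕ) : ℚ) ^ 40 * A

/-! ### D. determinant, p-adic -/

def StD3 : Prop := ∀ {n p : ℕ} [Fact p.Prime] (_ : 1 ≤ n) (_ : 12 * n < p ^ 2) (q : ℕ) (x : ℚ)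
  (_ : QI q x) (m : ℕ) (μ : ℤ) (S : Finset ℕ) (_ : S ⊆ Finset.range p)
  (_ : ∀ k ∈ sF n, k % p ∈ S ∨
    (padicNorm p (cF n) ≤ (p : ℚ) ^ μ ∧ k < 3 * n + 1 + p ∧
      ∀ k' ∈ sF n, k' ≠ k → ¬ (p : ℤ) ∣ (k' : ℤ) - k)),
  padicNorm p ((q : ℚ) ^ m * DET n x m) ≤ (p : ℚ) ^ ((m : ℤ) * μ + ∑ κ ∈ S, TT (1 - eF n p κ - μ))

def StD3l : Prop := ∀ {n p : ℕ} [Fact p.Prime] (_ : 1 ≤ n) (_ : 12 * n < p ^ 2) (_ : 9 * n ≤ p) (q : ℕ)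
  (x : ℚ) (_ : QI q x) (m : ℕ), padicNorm p ((q : ℚ) ^ m * DET n x m) ≤ 1

def StD4m : Prop := ∀ {n p : ℕ} [Fact p.Prime] (_ : 1 ≤ n) (_ : 16 * n < p ^ 2) (q : ℕ) (x : ℚ)
  (_ : QI q x), padicNorm p ((q : ℚ) ^ (4 * n) * DET n x (4 * n)) ≤
    ((p : ℚ) ^ 3) ^ (4 * n) * ∏ i ∈ Finset.range (4 * n), padicNorm p ((i.factorial : ℕ) : ℚ) ^ 2

def StD4c : Prop := ∀ {n p : ℕ} [Fact p.Prime] (_ : 1 ≤ n) (q : ℕ) (x : ℚ)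
  (_ : QI q x), padicNorm p ((q : ℚ) ^ (4 * n) * DET n x (4 * n)) ≤
    (((16 * n + 1 : ℕ) : ℚ) ^ 40) ^ (4 * n) *
      ∏ i ∈ Finset.range (4 * n), padicNorm p ((i.factorial : ℕ) : ℚ) ^ 2

/-! ### E. cells -/

def StE1 : Prop := ∀ {c : Cell} (_ : c.ok = true) {n p : ℕ} (_ : 0 < p) (_ : c.u0 * n < p * c.v0)
  (_ : p * c.v1 ≤ c.u1 * n) {a : ℕ} (_ : a ∈ [3, 4, 5, 8, 12]), a * n / p = c.fl a

def StE2 : Prop := ∀ {c : Cell} (_ : c.ok = true) {n p : ℕ} (_ : 1 ≤ n) (_ : p.Prime)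
  (_ : c.u0 * n < p * c.v0) (_ : p * c.v1 ≤ c.u1 * n) (f : ℕ → ℤ) (K : ℤ) (_ : 0 ≤ K) (_ : f 0 ≤ K)
  (_ : ∀ r, 1 ≤ r → r < p → f r ≤ c.cost (eF n p r) ((cnt p (3 * n + 1) (12 * n) r : ℕ) : ℤ)),
  ∑ r ∈ Finset.range p, f r ≤ (c.AB.1 - 4 * c.mu) * n + c.AB.2 * p + K

def StE4 : Prop := ∀ c : Cell, c.ok = true → ∃ K0 : ℝ, ∀ n : ℕ, 1 ≤ n → ∀ p : ℕ, p.Prime →
  12 * n < p ^ 2 → c.u0 * n < p * c.v0 → p * c.v1 ≤ c.u1 * n → ∀ (q : ℕ) (x : ℚ), QI q x →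
  ((padicNorm p ((q : ℚ) ^ (4 * n) * DET n x (4 * n)) : ℚ) : ℝ) ≤
    (p : ℝ) ^ ((c.AB.1 : ℝ) * n + c.AB.2 * p + K0)

/-- chain of cells from `u / v` to `12` -/
def PMchk : ℕ → ℕ → List Cell → Bool
  | u, v, [] => decide (0 < v) && decide (u = 12 * v)
  | u, v, c :: l => decide (0 < v) && decide (0 < c.v0) && decide (0 < c.v1) &&
      decide (c.u0 * v = u * c.v0) && decide (c.u0 * c.v1 ≤ c.u1 * c.v0) && PMchk c.u1 c.v1 l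

/-! ### F. sums over primes -/

def StF4 : Prop := ∀ {c : Cell}, c.ok = true → ∀ {n p : ℕ}, 1 ≤ n → 0 < p → c.u0 * n < p * c.v0 →
  p * c.v1 ≤ c.u1 * n →
  ((2 * ∑ i ∈ Finset.range (4 * n), (i / p) : ℕ) : ℤ) = c.sf.1 * n + c.sf.2 * p

def StF5 : Prop := ∀ᶠ n : ℕ in atTop,
  ∑ p ∈ (Finset.range (n + 1)).filter (fun p : ℕ => p.Prime ∧ 40 * p ≤ n),
    2 * ∑ i ∈ Finset.range (4 * n), Real.log ((padicNorm p ((i.factorial : ℕ) : ℚ) : ℚ) : ℝ) ≤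
  - (2 * ∑ i ∈ Finset.range (4 * n), Real.log (i.factorial : ℝ)) +
    ∑ p ∈ PR (1 / 40) 12 n, ((2 * ∑ i ∈ Finset.range (4 * n), (i / p) : ℕ) : ℝ) * Real.log p

/-- `32 log 2 - 24 = -1.8193` -/
def StF6 : Prop := ∀ ε : ℝ, 0 < ε → ∀ᶠ n : ℕ in atTop,
  16 * (n : ℝ) ^ 2 * Real.log n - (182 / 100 + ε) * (n : ℝ) ^ 2 ≤
    2 * ∑ i ∈ Finset.range (4 * n), Real.log (i.factorial : ℝ)

def StF7 : Prop := ∀ ε : ℝ, 0 < ε → ∀ᶠ n : ℕ in atTop,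
  4 * (n : ℝ) * ∑ p ∈ (Finset.range (n + 1)).filter (fun p : ℕ => p.Prime ∧ p ^ 2 ≤ 16 * n),
      40 * Real.log (16 * n + 1) +
  12 * (n : ℝ) * ∑ p ∈ (Finset.range (n + 1)).filter (fun p : ℕ => p.Prime ∧ 40 * p ≤ n), Real.log p ≤
  (12 / 40 + ε) * (n : ℝ) ^ 2

/-- the p-adic part (uniform in `q` and `x`) -/
def StP : Prop := ∀ ε : ℝ, 0 < ε → ∀ᶠ n : ℕ in atTop, ∀ (q : ℕ) (x : ℚ), QI q x →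
  DET n x (4 * n) ≠ 0 →
  ∑ p ∈ (Finset.range (12 * n + 1)).filter Nat.Prime,
    Real.log ((padicNorm p ((q : ℚ) ^ (4 * n) * DET n x (4 * n)) : ℚ) : ℝ) ≤
  -(16 * (n : ℝ) ^ 2 * Real.log n) + (3224 / 100 + ε) * (n : ℝ) ^ 2

def StPl : Prop := ∀ (q : ℕ) (x : ℚ), QI q x → ∀ n : ℕ, 1 ≤ n → ∀ p : ℕ, p.Prime → 12 * n < p →
  padicNorm p ((q : ℚ) ^ (4 * n) * DET n x (4 * n)) ≤ 1

/-- from the cells to `StP` (`L`: list of cells) -/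
def StPM : Prop := ∀ (L : List Cell), PMchk 1 40 L = true → L.all Cell.ok = true →
  (L.map Cell.lim).sum ≤ 3012 / 100 → StD4m → StD4c → StE4 → StF4 → StF5 → StF6 → StF7 → StP

/-! ### G. archimedean comparison -/

def StG1r : Prop := ∀ {n : ℕ}, 1 ≤ n → ∀ (y : ℝ) (M : ℕ), 11 * n ≤ M →
  (NG n y * Real.exp (-(2 * Real.pi * |y|))) ^ 2 *
  ((∏ m ∈ Finset.Ioc n (2 * n), (1 + y ^ 2 / ((m : ℝ) - 1 / 2) ^ 2) ^ 2) *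
   (∏ m ∈ Finset.Ioc (2 * n) (3 * n), (1 + y ^ 2 / ((m : ℝ) - 1 / 2) ^ 2) ^ 3) *
   (∏ m ∈ Finset.Ioc (3 * n) (4 * n), (1 + y ^ 2 / ((m : ℝ) - 1 / 2) ^ 2) ^ 5) *
   (∏ m ∈ Finset.Ioc (4 * n) (11 * n), (1 + y ^ 2 / ((m : ℝ) - 1 / 2) ^ 2) ^ 6) *
   (∏ m ∈ Finset.Ioc (11 * n) M, (1 + y ^ 2 / ((m : ℝ) - 1 / 2) ^ 2) ^ 4)) ≤ NG n 0 ^ 2

def StG1z : Prop := ∃ (C : ℝ) (K : ℕ), 0 < C ∧ ∀ n : ℕ, 1 ≤ n →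
  NG n 0 ≤ C * (n : ℝ) ^ K * Real.exp (n * PhiG)

/-! ### H. non-vanishing at good primes `n = p` -/

def StH2 : Prop := ∀ {p : ℕ} [Fact p.Prime] (_ : 100 ≤ p) (r : ℕ) (_ : 1 ≤ r) (_ : r ≤ p),
  ∃ w : ℚ, padicNorm p w = 1 ∧ ∀ e j i : ℕ, e ≤ 6 → 4 ≤ j → j ≤ 11 → 1 ≤ i → i ≤ 2 →
    padicNorm p (pa (sF p) mF (PF p * ((X + C (r : ℚ)) ^ e * OT p r 8)) (r + j * p) i
      / (p : ℚ) ^ (i + e) - w * PowerSeries.coeff (2 - i) (ser j e)) ≤ (p : ℚ)⁻¹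

def StH3 : Prop := ∀ {p : ℕ} [Fact p.Prime] (_ : 100 ≤ p) (r : ℕ) (_ : 1 ≤ r) (_ : r ≤ p),
  ∃ w : ℚ, padicNorm p w = 1 ∧ ∀ (x a b : ℚ), padicNorm p a ≤ 1 → padicNorm p b ≤ 1 →
    a * ((p : ℚ) ^ 3 * x) = b → ∀ e : ℕ, e ≤ 6 →
    padicNorm p (a * ((p : ℚ) ^ (1 - (e : ℤ)) * NL p x ((X + C (r : ℚ)) ^ e * OT p r 8)) -
      w * (a * Fm e + b * rm e)) ≤ (p : ℚ)⁻¹

def StH4 : Prop := ∀ {p : ℕ} [Fact p.Prime] (_ : 100 ≤ p) (x a b : ℚ) (_ : padicNorm p a ≤ 1)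
  (_ : padicNorm p b ≤ 1) (_ : a * ((p : ℚ) ^ 3 * x) = b) (r s l l' : ℕ) (_ : 1 ≤ r) (_ : r ≤ p)
  (_ : 1 ≤ s) (_ : s ≤ p) (_ : r ≠ s) (_ : l < 4) (_ : l' < 4),
  padicNorm p (a * ((p : ℚ) ^ (1 - (l : ℤ) - (l' : ℤ)) * NL p x
    (((X + C (r : ℚ)) ^ l * OT p r 4) * ((X + C (s : ℚ)) ^ l' * OT p s 4)))) ≤ (p : ℚ)⁻¹

/-- the local quartic: coefficients -/
def q4 : ℕ → ℤ
  | 0 => 13259929155477817804276796363334014823283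
  | 1 => -44124131297804656561817872175724361347000
  | 2 => 55060785203599765663890259251877992000000
  | 3 => -30536982100946341454819386503600000000000
  | 4 => 6350985136599666663914956800000000000000
  | _ => 0

/-- the local determinant -/
noncomputable def LD (a b : ℚ) : ℚ := (Matrix.of fun i j : Fin 4 => a * Fm (i.1 + j.1) + b * rm (i.1 + j.1)).det

/-- H5: the local determinant is (a rational multiple of) an explicit quartic form -/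
def StH5 : Prop := ∃ κ : ℚ, κ ≠ 0 ∧ ∀ a b : ℚ,
  LD a b = κ * ∑ i ∈ Finset.range 5, (q4 i : ℚ) * a ^ (4 - i) * b ^ i

/-- good primes: the quartic has no root modulo `p` -/
def Good (p : ℕ) : Prop := p.Prime ∧ ∀ t : ℤ, ¬ (p : ℤ) ∣ ∑ i ∈ Finset.range 5, q4 i * t ^ i

/-- H5': the local determinant is a unit -/
def StH5' : Prop := ∃ p0 : ℕ, ∀ p : ℕ, p0 ≤ p → Good p → ∀ a b : ℚ,
  padicNorm p a ≤ 1 → padicNorm p b ≤ 1 → (padicNorm p a = 1 ∨ padicNorm p b = 1) →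
  padicNorm p (LD a b) = 1

/-- non-vanishing -/
def StH6 : Prop := ∃ p0 : ℕ, ∀ p : ℕ, p0 ≤ p → Good p → ∀ x : ℚ, DET p x (4 * p) ≠ 0

/-! ### Z. good primes in short intervals -/

def StZ1 : Prop := ∀ ε : ℝ, 0 < ε → ∃ L0 : ℝ, ∀ L : ℝ, L0 ≤ L →
  ∃ p : ℕ, Good p ∧ L < p ∧ (p : ℝ) ≤ (1 + ε) * L

end Pool.Agent.TH609.E3
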