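import Pool.Agent.TH609.E3.Cells
import Pool.Agent.TH609.E3.Stm

/-!
# F3: the total of the cells
-/

set_option autoImplicit false

namespace Pool.Agent.TH609.E3

/-- numerator of the limit -/
def Cell.limN (c : Cell) : ℤ :=
  2 * (c.AB.1 + c.sf.1) * ((c.u1 : ℤ) * c.v0 - (c.u0 : ℤ) * c.v1) * (c.v0 * c.v1) +
    (c.AB.2 + c.sf.2) * ((c.u1 : ℤ) ^ 2 * (c.v0 : ℤ) ^ 2 - (c.u0 : ℤ) ^ 2 * (c.v1 : ℤ) ^ 2)

/-- the limit, in units of `10 ^ (-6)`, rounded up -/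
def Cell.limI (c : Cell) : ℤ :=
  -((-(c.limN * 10 ^ 6)) / (2 * (c.v0 : ℤ) ^ 2 * (c.v1 : ℤ) ^ 2))

theorem Cell.lim_le (c : Cell) (h0 : 0 < c.v0) (h1 : 0 < c.v1) :
    c.lim ≤ (c.limI : ℚ) / 10 ^ 6 := by
  have q0 : (0 : ℚ) < c.v0 := by exact_mod_cast h0
  have q1 : (0 : ℚ) < c.v1 := by exact_mod_cast h1
  have hz : (0 : ℤ) < 2 * (c.v0 : ℤ) ^ 2 * (c.v1 : ℤ) ^ 2 := by positivity
  have hzq : (0 : ℚ) < 2 * (c.v0 : ℚ) ^ 2 * (c.v1 : ℚ) ^ 2 := by positivity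
  have e : c.lim = (c.limN : ℚ) / (2 * (c.v0 : ℚ) ^ 2 * (c.v1 : ℚ) ^ 2) := by
    unfold Cell.lim Cell.limN
    push_cast
    field_simp
  rw [e, div_le_div_iff₀ hzq (by norm_num)]
  have h2 : (-(c.limN * 10 ^ 6)) / (2 * (c.v0 : ℤ) ^ 2 * (c.v1 : ℤ) ^ 2) *
      (2 * (c.v0 : ℤ) ^ 2 * (c.v1 : ℤ) ^ 2) ≤ -(c.limN * 10 ^ 6) := Int.ediv_mul_le _ hz.ne'
  have h3 : c.limN * 10 ^ 6 ≤ c.limI * (2 * (c.v0 : ℤ) ^ 2 * (c.v1 : ℤ) ^ 2) := by
    unfold Cell.limI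
    linarith
  exact_mod_cast h3

theorem F3_list (l : List Cell) (hl : l.all (fun c => decide (0 < c.v0) && decide (0 < c.v1)) = true) :
    (l.map Cell.lim).sum ≤ (((l.map Cell.limI).sum : ℤ) : ℚ) / 10 ^ 6 := by
  induction l with
  | nil => simp
  | cons c l ih =>
    simp only [List.all_cons, Bool.and_eq_true, decide_eq_true_eq] at hl
    obtain ⟨⟨h0, h1⟩, h2⟩ := hl
    rw [List.map_cons, List.map_cons, List.sum_cons, List.sum_cons]
    push_cast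
    rw [add_div]
    have := ih (by simpa using h2)
    have h3 := c.lim_le h0 h1
    push_cast at this
    linarith

theorem F3_pos : cells.all (fun c => decide (0 < c.v0) && decide (0 < c.v1)) = true := by
  decide +kernel

theorem F3_sum : (cells.map Cell.limI).sum ≤ 30120000 := by
  decide +kernel

/-- true value `30.1143` -/
theorem F3_total : (cells.map Cell.lim).sum ≤ 3012 / 100 := by
  refine (F3_list cells F3_pos).trans ?_
  have h : (((cells.map Cell.limI).sum : ℤ) : ℚ) ≤ ((30120000 : ℤ) : ℚ) := by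
    exact_mod_cast F3_sum
  rw [div_le_iff₀ (by norm_num)]
  refine h.trans ?_
  norm_num

theorem E5_ok : cells.all Cell.ok = true := by
  decide +kernel

theorem E5_chk : PMchk 1 40 cells = true := by
  decide +kernel

end Pool.Agent.TH609.E3
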