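import Pool.Agent.TH609.E3.Dat

/-!
# The rows of the certificate as lists
-/

set_option autoImplicit false

namespace Pool.Agent.TH609.E3

/-- the row of the stage `b`: kind of the node, parameter, multiplicity -/
def row (b : ℕ) : List (Bool × ℕ × ℕ) :=
  (List.range nN).map fun i => (decide (i < nL), cN i, sG b i)

lemma prod_list {α : Type*} [CommMonoid α] (G : ℕ → α) (m : ℕ) :
    ∏ i ∈ Finset.range m, G i = ((List.range m).map G).prod := by
  induction m with
  | zero => simp
  | succ m ih =>
    rw [Finset.prod_range_succ, ih, List.range_succ, List.map_append, List.prod_append]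
    simp

/-- products over the rows -/
lemma prod_row {α : Type*} [CommMonoid α] (b : ℕ) (F : Bool × ℕ × ℕ → α) :
    ∏ i ∈ Finset.range nN, F (decide (i < nL), cN i, sG b i) = ((row b).map F).prod := by
  unfold row
  rw [List.map_map, prod_list]
  rfl

end Pool.Agent.TH609.E3
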