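import Pool.Agent.TH609.E3.Rows

/-!
# The rows of the certificate (literal lists)
-/

set_option autoImplicit false

namespace Pool.Agent.TH609.E3

def rw0 : List (Bool × ℕ × ℕ) :=
  [(true, 3298, 0), (true, 580, 0), (true, 6129, 0), (true, 1299, 0), (true, 16, 0),
   (true, 7308, 0), (true, 9207, 0), (true, 4007, 0), (true, 1889, 0), (true, 36905, 0),
   (true, 24885, 0), (true, 22808, 0), (true, 12129, 0), (true, 14417, 0), (true, 50257, 0),
   (true, 4884, 0), (true, 45558, 0), (true, 2595, 0), (true, 17227, 0), (true, 33622, 0),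
   (true, 8269, 0), (true, 941, 0), (true, 192, 0), (true, 30616, 0), (true, 10465, 0),
   (true, 19989, 0), (true, 40819, 0), (true, 27302, 0), (false, 98018, 0), (false, 100450, 0),
   (false, 103226, 0), (false, 95161, 0), (false, 91983, 0), (false, 106397, 0),
   (false, 60661, 0), (false, 87985, 0)]

theorem er0 : tG 0 = 140 ∧ row 0 = rw0 := by decide +kernel

def rw1 : List (Bool × ℕ × ℕ) :=
  [(true, 3298, 0), (true, 580, 1), (true, 6129, 0), (true, 1299, 0), (true, 16, 1),
   (true, 7308, 0), (true, 9207, 0), (true, 4007, 0), (true, 1889, 0), (true, 36905, 0),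
   (true, 24885, 0), (true, 22808, 0), (true, 12129, 0), (true, 14417, 0), (true, 50257, 0),
   (true, 4884, 0), (true, 45558, 0), (true, 2595, 0), (true, 17227, 0), (true, 33622, 0),
   (true, 8269, 0), (true, 941, 0), (true, 192, 1), (true, 30616, 0), (true, 10465, 0),
   (true, 19989, 0), (true, 40819, 0), (true, 27302, 0), (false, 98018, 0), (false, 100450, 0),
   (false, 103226, 0), (false, 95161, 0), (false, 91983, 0), (false, 106397, 0),
   (false, 60661, 0), (false, 87985, 0)]

theorem er1 : tG 1 = 176 ∧ row 1 = rw1 := by decide +kernel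

def rw2 : List (Bool × ℕ × ℕ) :=
  [(true, 3298, 0), (true, 580, 2), (true, 6129, 0), (true, 1299, 1), (true, 16, 2),
   (true, 7308, 0), (true, 9207, 0), (true, 4007, 0), (true, 1889, 1), (true, 36905, 0),
   (true, 24885, 0), (true, 22808, 0), (true, 12129, 0), (true, 14417, 0), (true, 50257, 0),
   (true, 4884, 0), (true, 45558, 0), (true, 2595, 0), (true, 17227, 0), (true, 33622, 0),
   (true, 8269, 0), (true, 941, 0), (true, 192, 1), (true, 30616, 0), (true, 10465, 0),
   (true, 19989, 0), (true, 40819, 0), (true, 27302, 0), (false, 98018, 0), (false, 100450, 0),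
   (false, 103226, 0), (false, 95161, 0), (false, 91983, 0), (false, 106397, 0),
   (false, 60661, 0), (false, 87985, 0)]

theorem er2 : tG 2 = 209 ∧ row 2 = rw2 := by decide +kernel

def rw3 : List (Bool × ℕ × ℕ) :=
  [(true, 3298, 0), (true, 580, 2), (true, 6129, 0), (true, 1299, 1), (true, 16, 2),
   (true, 7308, 0), (true, 9207, 0), (true, 4007, 1), (true, 1889, 1), (true, 36905, 0),
   (true, 24885, 0), (true, 22808, 0), (true, 12129, 0), (true, 14417, 0), (true, 50257, 0),
   (true, 4884, 0), (true, 45558, 0), (true, 2595, 2), (true, 17227, 0), (true, 33622, 0),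
   (true, 8269, 0), (true, 941, 1), (true, 192, 2), (true, 30616, 0), (true, 10465, 0),
   (true, 19989, 0), (true, 40819, 0), (true, 27302, 0), (false, 98018, 0), (false, 100450, 0),
   (false, 103226, 0), (false, 95161, 0), (false, 91983, 0), (false, 106397, 0),
   (false, 60661, 0), (false, 87985, 0)]

theorem er3 : tG 3 = 241 ∧ row 3 = rw3 := by decide +kernel

def rw4 : List (Bool × ℕ × ℕ) :=
  [(true, 3298, 1), (true, 580, 2), (true, 6129, 1), (true, 1299, 2), (true, 16, 2),
   (true, 7308, 0), (true, 9207, 0), (true, 4007, 1), (true, 1889, 1), (true, 36905, 0),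
   (true, 24885, 0), (true, 22808, 0), (true, 12129, 0), (true, 14417, 0), (true, 50257, 0),
   (true, 4884, 1), (true, 45558, 0), (true, 2595, 2), (true, 17227, 0), (true, 33622, 0),
   (true, 8269, 0), (true, 941, 1), (true, 192, 3), (true, 30616, 0), (true, 10465, 0),
   (true, 19989, 0), (true, 40819, 0), (true, 27302, 0), (false, 98018, 0), (false, 100450, 0),
   (false, 103226, 0), (false, 95161, 0), (false, 91983, 0), (false, 106397, 0),
   (false, 60661, 0), (false, 87985, 0)]

theorem er4 : tG 4 = 267 ∧ row 4 = rw4 := by decide +kernel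

def rw5 : List (Bool × ℕ × ℕ) :=
  [(true, 3298, 2), (true, 580, 4), (true, 6129, 2), (true, 1299, 2), (true, 16, 2),
   (true, 7308, 1), (true, 9207, 0), (true, 4007, 1), (true, 1889, 1), (true, 36905, 0),
   (true, 24885, 0), (true, 22808, 0), (true, 12129, 0), (true, 14417, 0), (true, 50257, 0),
   (true, 4884, 1), (true, 45558, 0), (true, 2595, 2), (true, 17227, 0), (true, 33622, 0),
   (true, 8269, 1), (true, 941, 1), (true, 192, 3), (true, 30616, 0), (true, 10465, 0),
   (true, 19989, 0), (true, 40819, 0), (true, 27302, 0), (false, 98018, 0), (false, 100450, 0),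
   (false, 103226, 0), (false, 95161, 0), (false, 91983, 0), (false, 106397, 0),
   (false, 60661, 0), (false, 87985, 0)]

theorem er5 : tG 5 = 290 ∧ row 5 = rw5 := by decide +kernel

def rw6 : List (Bool × ℕ × ℕ) :=
  [(true, 3298, 2), (true, 580, 4), (true, 6129, 2), (true, 1299, 2), (true, 16, 3),
   (true, 7308, 1), (true, 9207, 1), (true, 4007, 1), (true, 1889, 2), (true, 36905, 0),
   (true, 24885, 0), (true, 22808, 0), (true, 12129, 1), (true, 14417, 0), (true, 50257, 0),
   (true, 4884, 2), (true, 45558, 0), (true, 2595, 2), (true, 17227, 0), (true, 33622, 0),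
   (true, 8269, 1), (true, 941, 1), (true, 192, 3), (true, 30616, 0), (true, 10465, 1),
   (true, 19989, 0), (true, 40819, 0), (true, 27302, 0), (false, 98018, 0), (false, 100450, 0),
   (false, 103226, 0), (false, 95161, 0), (false, 91983, 0), (false, 106397, 0),
   (false, 60661, 0), (false, 87985, 0)]

theorem er6 : tG 6 = 311 ∧ row 6 = rw6 := by decide +kernel

def rw7 : List (Bool × ℕ × ℕ) :=
  [(true, 3298, 2), (true, 580, 4), (true, 6129, 2), (true, 1299, 2), (true, 16, 3),
   (true, 7308, 2), (true, 9207, 1), (true, 4007, 1), (true, 1889, 3), (true, 36905, 0),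
   (true, 24885, 0), (true, 22808, 0), (true, 12129, 2), (true, 14417, 2), (true, 50257, 0),
   (true, 4884, 3), (true, 45558, 0), (true, 2595, 2), (true, 17227, 0), (true, 33622, 0),
   (true, 8269, 1), (true, 941, 1), (true, 192, 4), (true, 30616, 0), (true, 10465, 1),
   (true, 19989, 0), (true, 40819, 0), (true, 27302, 0), (false, 98018, 0), (false, 100450, 0),
   (false, 103226, 0), (false, 95161, 0), (false, 91983, 0), (false, 106397, 0),
   (false, 60661, 0), (false, 87985, 0)]

theorem er7 : tG 7 = 329 ∧ row 7 = rw7 := by decide +kernel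

def rw8 : List (Bool × ℕ × ℕ) :=
  [(true, 3298, 2), (true, 580, 4), (true, 6129, 2), (true, 1299, 3), (true, 16, 3),
   (true, 7308, 2), (true, 9207, 2), (true, 4007, 2), (true, 1889, 3), (true, 36905, 0),
   (true, 24885, 0), (true, 22808, 0), (true, 12129, 2), (true, 14417, 2), (true, 50257, 0),
   (true, 4884, 3), (true, 45558, 0), (true, 2595, 2), (true, 17227, 2), (true, 33622, 0),
   (true, 8269, 1), (true, 941, 1), (true, 192, 5), (true, 30616, 0), (true, 10465, 2),
   (true, 19989, 1), (true, 40819, 0), (true, 27302, 0), (false, 98018, 0), (false, 100450, 0),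
   (false, 103226, 0), (false, 95161, 0), (false, 91983, 0), (false, 106397, 0),
   (false, 60661, 0), (false, 87985, 0)]

theorem er8 : tG 8 = 344 ∧ row 8 = rw8 := by decide +kernel

def rw9 : List (Bool × ℕ × ℕ) :=
  [(true, 3298, 2), (true, 580, 4), (true, 6129, 3), (true, 1299, 3), (true, 16, 3),
   (true, 7308, 2), (true, 9207, 2), (true, 4007, 2), (true, 1889, 3), (true, 36905, 0),
   (true, 24885, 1), (true, 22808, 1), (true, 12129, 3), (true, 14417, 3), (true, 50257, 0),
   (true, 4884, 3), (true, 45558, 0), (true, 2595, 3), (true, 17227, 2), (true, 33622, 0),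
   (true, 8269, 1), (true, 941, 1), (true, 192, 6), (true, 30616, 0), (true, 10465, 2),
   (true, 19989, 2), (true, 40819, 0), (true, 27302, 0), (false, 98018, 0), (false, 100450, 0),
   (false, 103226, 0), (false, 95161, 0), (false, 91983, 0), (false, 106397, 0),
   (false, 60661, 0), (false, 87985, 0)]

theorem er9 : tG 9 = 354 ∧ row 9 = rw9 := by decide +kernel

def rw10 : List (Bool × ℕ × ℕ) :=
  [(true, 3298, 2), (true, 580, 4), (true, 6129, 3), (true, 1299, 3), (true, 16, 4),
   (true, 7308, 3), (true, 9207, 2), (true, 4007, 2), (true, 1889, 4), (true, 36905, 0),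
   (true, 24885, 1), (true, 22808, 2), (true, 12129, 3), (true, 14417, 3), (true, 50257, 0),
   (true, 4884, 4), (true, 45558, 0), (true, 2595, 3), (true, 17227, 3), (true, 33622, 0),
   (true, 8269, 1), (true, 941, 1), (true, 192, 6), (true, 30616, 0), (true, 10465, 2),
   (true, 19989, 2), (true, 40819, 0), (true, 27302, 2), (false, 98018, 0), (false, 100450, 0),
   (false, 103226, 0), (false, 95161, 0), (false, 91983, 0), (false, 106397, 0),
   (false, 60661, 0), (false, 87985, 0)]

theorem er10 : tG 10 = 355 ∧ row 10 = rw10 := by decide +kernel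

def rw11 : List (Bool × ℕ × ℕ) :=
  [(true, 3298, 2), (true, 580, 4), (true, 6129, 3), (true, 1299, 3), (true, 16, 4),
   (true, 7308, 3), (true, 9207, 2), (true, 4007, 2), (true, 1889, 4), (true, 36905, 0),
   (true, 24885, 1), (true, 22808, 2), (true, 12129, 3), (true, 14417, 3), (true, 50257, 0),
   (true, 4884, 4), (true, 45558, 0), (true, 2595, 3), (true, 17227, 4), (true, 33622, 1),
   (true, 8269, 1), (true, 941, 2), (true, 192, 6), (true, 30616, 1), (true, 10465, 3),
   (true, 19989, 2), (true, 40819, 0), (true, 27302, 2), (false, 98018, 1), (false, 100450, 0),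
   (false, 103226, 0), (false, 95161, 1), (false, 91983, 1), (false, 106397, 0),
   (false, 60661, 0), (false, 87985, 0)]

theorem er11 : tG 11 = 320 ∧ row 11 = rw11 := by decide +kernel

def rw12 : List (Bool × ℕ × ℕ) :=
  [(true, 3298, 3), (true, 580, 4), (true, 6129, 3), (true, 1299, 3), (true, 16, 4),
   (true, 7308, 3), (true, 9207, 2), (true, 4007, 2), (true, 1889, 4), (true, 36905, 1),
   (true, 24885, 1), (true, 22808, 2), (true, 12129, 3), (true, 14417, 4), (true, 50257, 0),
   (true, 4884, 4), (true, 45558, 0), (true, 2595, 3), (true, 17227, 4), (true, 33622, 1),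
   (true, 8269, 1), (true, 941, 2), (true, 192, 6), (true, 30616, 2), (true, 10465, 3),
   (true, 19989, 3), (true, 40819, 0), (true, 27302, 2), (false, 98018, 1), (false, 100450, 1),
   (false, 103226, 0), (false, 95161, 2), (false, 91983, 2), (false, 106397, 0),
   (false, 60661, 0), (false, 87985, 1)]

theorem er12 : tG 12 = 274 ∧ row 12 = rw12 := by decide +kernel

def rw13 : List (Bool × ℕ × ℕ) :=
  [(true, 3298, 3), (true, 580, 4), (true, 6129, 3), (true, 1299, 3), (true, 16, 4),
   (true, 7308, 3), (true, 9207, 2), (true, 4007, 2), (true, 1889, 4), (true, 36905, 2),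
   (true, 24885, 1), (true, 22808, 2), (true, 12129, 3), (true, 14417, 5), (true, 50257, 0),
   (true, 4884, 4), (true, 45558, 0), (true, 2595, 3), (true, 17227, 4), (true, 33622, 1),
   (true, 8269, 2), (true, 941, 2), (true, 192, 7), (true, 30616, 2), (true, 10465, 3),
   (true, 19989, 3), (true, 40819, 1), (true, 27302, 3), (false, 98018, 2), (false, 100450, 2),
   (false, 103226, 1), (false, 95161, 2), (false, 91983, 2), (false, 106397, 0),
   (false, 60661, 0), (false, 87985, 2)]

theorem er13 : tG 13 = 221 ∧ row 13 = rw13 := by decide +kernel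

def rw14 : List (Bool × ℕ × ℕ) :=
  [(true, 3298, 3), (true, 580, 4), (true, 6129, 3), (true, 1299, 4), (true, 16, 4),
   (true, 7308, 3), (true, 9207, 2), (true, 4007, 2), (true, 1889, 4), (true, 36905, 2),
   (true, 24885, 1), (true, 22808, 3), (true, 12129, 3), (true, 14417, 5), (true, 50257, 0),
   (true, 4884, 5), (true, 45558, 1), (true, 2595, 3), (true, 17227, 4), (true, 33622, 2),
   (true, 8269, 2), (true, 941, 2), (true, 192, 7), (true, 30616, 2), (true, 10465, 3),
   (true, 19989, 3), (true, 40819, 2), (true, 27302, 3), (false, 98018, 2), (false, 100450, 2),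
   (false, 103226, 2), (false, 95161, 3), (false, 91983, 2), (false, 106397, 1),
   (false, 60661, 0), (false, 87985, 4)]

theorem er14 : tG 14 = 157 ∧ row 14 = rw14 := by decide +kernel

def rw15 : List (Bool × ℕ × ℕ) :=
  [(true, 3298, 3), (true, 580, 4), (true, 6129, 3), (true, 1299, 5), (true, 16, 4),
   (true, 7308, 3), (true, 9207, 2), (true, 4007, 2), (true, 1889, 4), (true, 36905, 2),
   (true, 24885, 1), (true, 22808, 3), (true, 12129, 3), (true, 14417, 5), (true, 50257, 1),
   (true, 4884, 5), (true, 45558, 2), (true, 2595, 3), (true, 17227, 4), (true, 33622, 2),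
   (true, 8269, 3), (true, 941, 2), (true, 192, 7), (true, 30616, 3), (true, 10465, 3),
   (true, 19989, 4), (true, 40819, 2), (true, 27302, 3), (false, 98018, 2), (false, 100450, 2),
   (false, 103226, 3), (false, 95161, 4), (false, 91983, 2), (false, 106397, 2),
   (false, 60661, 1), (false, 87985, 5)]

theorem er15 : tG 15 = 90 ∧ row 15 = rw15 := by decide +kernel

def rw16 : List (Bool × ℕ × ℕ) :=
  [(true, 3298, 3), (true, 580, 4), (true, 6129, 3), (true, 1299, 5), (true, 16, 4),
   (true, 7308, 3), (true, 9207, 2), (true, 4007, 2), (true, 1889, 4), (true, 36905, 2),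
   (true, 24885, 1), (true, 22808, 4), (true, 12129, 3), (true, 14417, 5), (true, 50257, 3),
   (true, 4884, 5), (true, 45558, 3), (true, 2595, 3), (true, 17227, 4), (true, 33622, 2),
   (true, 8269, 4), (true, 941, 3), (true, 192, 7), (true, 30616, 3), (true, 10465, 3),
   (true, 19989, 4), (true, 40819, 2), (true, 27302, 3), (false, 98018, 3), (false, 100450, 2),
   (false, 103226, 3), (false, 95161, 4), (false, 91983, 2), (false, 106397, 4),
   (false, 60661, 1), (false, 87985, 7)]

theorem er16 : tG 16 = 19 ∧ row 16 = rw16 := by decide +kernel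

end Pool.Agent.TH609.E3
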