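import Pool.Agent.TH609.E3.Stm
import Pool.Agent.TH609.E3.DefsA

/-!
# Irrationality exponent of `ζ(3)`: the statements of the archimedean tasks
-/

set_option autoImplicit false

open Polynomial Pool.Agent.H337R2 Filter Topology

namespace Pool.Agent.TH609.E3

def StG1 : Prop := ∃ (C : ℝ) (K : ℕ), 0 < C ∧ ∀ n : ℕ, 60 ≤ n → ∀ y : ℝ,
  NG n y * Real.exp (-(2 * Real.pi * |y|)) * (1 + y ^ 2) ^ 260 * FXpG ((y / n) ^ 2) ^ (n / 60) ≤
    C * (n : ℝ) ^ K * Real.exp (n * PhiG)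

/-- certificate on the line -/
def StG3 : Prop := ∀ b : ℕ, b ≤ nB → ∀ v : ℝ, 0 ≤ v →
  2 ^ tG b * ∏ i ∈ Finset.range nN, nv i v ^ (2 * sG b i) ≤ 2 ^ TO * FXpG v

/-- certificate at the poles -/
def StR3 : Prop := ∃ (C : ℝ) (K : ℕ), 0 < C ∧ ∀ n k b : ℕ, 1 ≤ n →
  k ∈ Finset.Icc (5 * n + 1) (12 * n) → b ≤ nB →
  ((RK n k : ℚ) : ℝ) * 2 ^ (tG b * (n / 60)) *
    (∏ i ∈ Finset.range nN, nk i ((k : ℝ) / n) ^ (2 * sG b i)) ^ (n / 60) ≤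
    C * (n : ℝ) ^ K * 2 ^ ((UU + TO) * (n / 60))

/-- degrees of the basis -/
def StG4a : Prop := ∀ {n b m j : ℕ}, Pos n b m j →
  (PA n b m j).Monic ∧ (PA n b m j).natDegree = dg n b m j

/-- bound of the basis on the line -/
def StG4b : Prop := ∃ (C : ℝ) (K : ℕ), 0 < C ∧ ∀ n : ℕ, 60 ≤ n → ∀ {b m j : ℕ}, Pos n b m j → ∀ y : ℝ,
  NG n y * Real.exp (-(2 * Real.pi * |y|)) * (1 + y ^ 2) * ‖aeval (zn n y) (PA n b m j)‖ ^ 2 ≤
    Real.exp (al C K n b m)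

/-- bound of the basis at the poles -/
def StG4c : Prop := ∃ (C : ℝ) (K : ℕ), 0 < C ∧ ∀ n : ℕ, 60 ≤ n → ∀ {b m j : ℕ}, Pos n b m j →
  ∀ k ∈ Finset.Icc (5 * n + 1) (12 * n),
  ((RK n k : ℚ) : ℝ) * |(((PA n b m j).eval (-(k : ℚ)) : ℚ) : ℝ)| ^ 2 ≤
    Real.exp (al C K n b m) * (Real.exp (-(n * PhiG)) * 2 ^ (UU * (n / 60)))

/-- the stage of a position -/
def stg (n i : ℕ) : ℕ := ((Finset.range nB).filter fun b => 2 * ho (b + 1) * (n / 60) ≤ i).card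

/-- enumeration of the positions -/
def loc (n i : ℕ) : ℕ × ℕ × ℕ :=
  if stg n i < nB then
    (stg n i, (i - 2 * ho (stg n i) * (n / 60)) / (2 * (ho (stg n i + 1) - ho (stg n i))),
      (i - 2 * ho (stg n i) * (n / 60)) % (2 * (ho (stg n i + 1) - ho (stg n i))))
  else (nB, 0, i - 240 * (n / 60))

/-- the positions have the right degrees -/
def StG4d : Prop := ∀ {n i : ℕ}, 60 ≤ n → i < 4 * n →
  Pos n (loc n i).1 (loc n i).2.1 (loc n i).2.2 ∧ dg n (loc n i).1 (loc n i).2.1 (loc n i).2.2 = i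

/-- the sum of the exponents -/
def StG4e : Prop := ∀ (C : ℝ) (K : ℕ), 0 < C → ∀ ε : ℝ, 0 < ε → ∀ᶠ n : ℕ in atTop,
  ∑ i ∈ Finset.range (4 * n), al C K n (loc n i).1 (loc n i).2.1 ≤
    16 * (n : ℝ) ^ 2 * Real.log n + (4 * PhiG - SS / 3600 * Real.log 2 + ε) * (n : ℝ) ^ 2

/-- the archimedean constant (in `1/100`) -/
abbrev cA : ℕ := 7411

/-- the closeness constant (in `1/100`) -/
abbrev cB : ℕ := 5082

/-- numerical value of the rate -/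
def StG5 : Prop := 4 * PhiG - SS / 3600 * Real.log 2 ≤ -(((cA : ℕ) : ℝ) / 100) - 1 / 100

/-- numerical value of the closeness constant -/
def StG6 : Prop := (UU : ℝ) / 60 * Real.log 2 - PhiG ≤ ((cB : ℕ) : ℝ) / 100 - 1 / 100

/-- total archimedean bound -/
def StAM : Prop := ∀ᶠ n : ℕ in atTop, ∀ x : ℚ,
  |(x : ℝ) - zr 3| ≤ Real.exp (-(((cB : ℕ) : ℝ) / 100 * n)) → DET n x (4 * n) ≠ 0 →
  Real.log |((DET n x (4 * n) : ℚ) : ℝ)| ≤
    16 * (n : ℝ) ^ 2 * Real.log n - ((cA : ℕ) : ℝ) / 100 * (n : ℝ) ^ 2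

end Pool.Agent.TH609.E3
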