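import Pool.Agent.TH609.E3.F3
import Pool.Agent.TH609.E3.Cert
import Pool.Agent.TH609.E3.W918.B1
import Pool.Agent.TH609.E3.W924.R1
import Pool.Agent.TH609.E3.W976.B3
import Pool.Agent.TH609.E3.W378.C1
import Pool.Agent.TH609.E3.W368.C2
import Pool.Agent.TH609.E3.W392.C3
import Pool.Agent.TH609.E3.W125.D3
import Pool.Agent.TH609.E3.W764.D4
import Pool.Agent.TH609.E3.W52.Z3E2
import Pool.Agent.TH609.E3.W319.E4
import Pool.Agent.TH609.E3.W460.F4
import Pool.Agent.TH609.E3.W923.PM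
import Pool.Agent.TH609.E3.W692.G1r
import Pool.Agent.TH609.E3.W790.G1m
import Pool.Agent.TH609.E3.W249.G4a
import Pool.Agent.TH609.E3.W395.G4b
import Pool.Agent.TH609.E3.W565.G4c
import Pool.Agent.TH609.E3.W311.G4e
import Pool.Agent.TH609.E3.W28.AM
import Pool.Agent.TH609.E3.W962.H2
import Pool.Agent.TH609.E3.W999.H3
import Pool.Agent.TH609.E3.W29.H4
import Pool.Agent.TH609.E3.W337.H5
import Pool.Agent.TH609.E3.Z1.Z1
import Pool.Agent.TH609.E3.W878.Z2
import Pool.Agent.TH609.E3.W509.H6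

/-!
# Irrationality exponent of `ζ(3)`: assembly

(The structure is that of the starting files `Pool/Agent/W170/Z3`.)
-/

namespace Pool.Agent.TH609.E3

theorem hB3 : StB3 := W976.B3_of W918.B1 W924.R1.main

theorem hC2 : StC2 := W368.C2_of W378.C1_pa W378.C1_pa_int

theorem hP : StP :=
  W923.PM cells E5_chk E5_ok F3_total (W764.D4m_of hC2)
    (W764.D4c_of W392.C3)
    (W319.E4_of (W125.D3_of hC2) W52.E1 W52.E2)
    W460.F4 W460.F5 W460.F6 W460.F7

theorem hPl : StPl := W923.Pl_of (W125.D3l_of hC2)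

theorem hG1 : StG1 := W790.G1_of W692.G1r W692.G1z

theorem hG4b : StG4b := W395.G4b_of hG1 G3_cert

theorem hR3 : StR3 := R3_cert W924.R1.r2

theorem hAM : StAM :=
  W28.AM_of hB3 W249.G4a hG4b (W565.G4c_of hR3) W249.G4d W311.G4e

theorem hH3 : StH3 := W999.H3_of W378.C1_pa W962.H2

theorem hH4 : StH4 := W29.H4_of W378.C1_pa

theorem hH5' : StH5' := W337.H5'

theorem hH6 : StH6 := W509.H6_of hH3 hH4 hH5'

/-- **bound for the irrationality exponent of `ζ(3)`** -/
theorem Z_main : W878.StZ := W878.Z_of hAM hP hPl hH6 Z1.Z1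

end Pool.Agent.TH609.E3
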